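import Pool.Agent.H560CM.Load

/-! Certificate for 2 agents. -/

set_option autoImplicit false

namespace Pool.Agent.H560CM.C2

def tb : ℕ := 0xb19310000001b39310000000486ce00000014c6ce0000000319390000001b193900000004c6c600000014e6c60000000911b90000001919b900000004e64600000016e646000000011b39000000131b3900000004e4c60000001ce4c6000000010bb9000000111bb900000006e4460000001ee4460000000111bb0000001911bb00000006e64400000016ee440000000103bd000000110bbd0000000ee4420000001ef44200000001869e00000015869e0000000a39610000001a796100000000879e00000011879e0000000a78610000001e78610000000007de0000001087de0000000e78210000001f78210000000f78010000001ff8010000000ef4400000001efc40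

def cs0 : List ℕ := [0x2b002500020002,
 0x260024013902c600040000,
 0x9000800020001,
 0x5000400020001,
 0x11001000020001,
 0x19001800020001,
 0x27002600020001,
 0x21002000020001,
 0x1d001c00020001,
 0x27001d00020002,
 0xf000900020002,
 0x29000d00020002,
 0x15001400020001,
 0x25002400020001,
 0x1f002100020002,
 0x1b001a00020001,
 0xb000a00020001,
 0x22002001b9024600040000,
 0xa0008039e006100040000,
 0x1f001e00020001,
 0x16001401bb024400040000,
 0x17001600020001,
 0x3bf004000030000,
 0xd000c00020001,
 0x12001003bd004200040000,
 0x29002800020001,
 0x2a0028013102ce00040000,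
 0x1b001100020002,
 0x3000200020001,
 0x17001900020002,
 0x23002200020001,
 0x23001500020002,
 0x203fe000100030000,
 0x13000100020002,
 0x7000300020002,
 0x7000600020001,
 0x13001200020001,
 0x1e001c033900c600040000,
 0x1000000020001,
 0xf000e00020001,
 0x1a001803b9004600040000,
 0x2b002a00020001,
 0xe000c029e016100040000,
 0xb000500020002,
 0x6000403de002100040000]

def cs : List ℕ := cs0

def steps0 : List ℕ := [0x1c0020000600020001,
 0x22002d000f00020001,
 0x23002e000d00020001,
 0x260016000200020001,
 0x210030002700020001,
 0x240031002500020001,
 0x180032002000020001,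
 0x40033002200020001,
 0x1b0034003700020001,
 0xf0035003500020001,
 0x280036003000020001,
 0x50037003200020001,
 0x1d0038002f00020001,
 0x150039002d00020001,
 0x14003a002800020001,
 0xc003b002a00020001,
 0x1f003c004700020001,
 0x1e003d004500020001,
 0x11003e004000020001,
 0x7003f004200020001,
 0xe0040003f00020001,
 0x130041003d00020001,
 0x250042003800020001,
 0x80043003a00020001,
 0x90044004f00020001,
 0x60045004d00020001,
 0x10046004800020001,
 0xd0047004a00020001,
 0x48005700020001,
 0x290049005500020001,
 0x1a004a005000020001,
 0x19004b005200020001,
 0xb004c001b00020001,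
 0x17004d001900020001,
 0x2a004e001c00020001,
 0x27004f001e00020001,
 0xa0050001300020001,
 0x20051001100020001,
 0x120052001400020001,
 0x100053001600020001,
 0x2b0054000b00020001,
 0x30055000900020001,
 0x2c002f005600030000]

def steps : List ℕ := steps0

set_option maxRecDepth 1000000 in
theorem ok : check (ckP tb 2) cs steps = true := by decide +kernel

end Pool.Agent.H560CM.C2
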