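import Pool.Agent.H560CM.C3S1
import Pool.Agent.H560CM.C3S2

/-! Certificate for 3 agents. -/

set_option autoImplicit false

namespace Pool.Agent.H560CM.C3

open Finset Pool.Agent.V11103.EF

theorem fin {v : Finset (Fin 10) → ℝ} (mono : ∀ S T, S ⊆ T → v S ≤ v T) :
    ∃ A : Fin 3 → Finset (Fin 10), IsAllocation A ∧ IsConnectedAllocation exGraph A ∧
      IsEF1Outer exGraph (fun _ => v) A := by
  by_contra hcon
  push Not at hcon
  obtain ⟨val, hv⟩ : ∃ val, PVal v tb val := ⟨_, rfl⟩
  have h0 : AllSat val [] := fun c hc => by simp at hc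
  have h1 := PVal.seg mono hcon hv ok1 h0
  have h2 := PVal.seg mono hcon hv ok2 h1
  have h3 := PVal.seg mono hcon hv ok3 h2
  have h4 := PVal.seg mono hcon hv ok4 h3
  have h5 := PVal.seg mono hcon hv ok5 h4
  have h6 := PVal.seg mono hcon hv ok6 h5
  exact not_allSat h6 (by decide +kernel)

end Pool.Agent.H560CM.C3
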