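import Pool.Agent.H560CM.C4S1
import Pool.Agent.H560CM.C4S2
import Pool.Agent.H560CM.C4S3
import Pool.Agent.H560CM.C4S4
import Pool.Agent.H560CM.C4S5
import Pool.Agent.H560CM.C4S6

/-! Certificate for 4 agents. -/

set_option autoImplicit false

namespace Pool.Agent.H560CM.C4

open Finset Pool.Agent.V11103.EF

theorem fin {v : Finset (Fin 10) → ℝ} (mono : ∀ S T, S ⊆ T → v S ≤ v T) :
    ∃ A : Fin 4 → Finset (Fin 10), IsAllocation A ∧ IsConnectedAllocation exGraph A ∧
      IsEF1Outer exGraph (fun _ => v) A := by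
  by_contra hcon
  push Not at hcon
  obtain ⟨val, hv⟩ := exists_DVal (tb := tb) (m := 1135) (by norm_num) ok0 v
  have h0 : AllSat val [] := fun c hc => by simp at hc
  have h1 := DVal.seg mono hcon hv ok1 h0
  have h2 := DVal.seg mono hcon hv ok2 h1
  have h3 := DVal.seg mono hcon hv ok3 h2
  have h4 := DVal.seg mono hcon hv ok4 h3
  have h5 := DVal.seg mono hcon hv ok5 h4
  have h6 := DVal.seg mono hcon hv ok6 h5
  have h7 := DVal.seg mono hcon hv ok7 h6
  have h8 := DVal.seg mono hcon hv ok8 h7
  have h9 := DVal.seg mono hcon hv ok9 h8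
  have h10 := DVal.seg mono hcon hv ok10 h9
  have h11 := DVal.seg mono hcon hv ok11 h10
  have h12 := DVal.seg mono hcon hv ok12 h11
  have h13 := DVal.seg mono hcon hv ok13 h12
  have h14 := DVal.seg mono hcon hv ok14 h13
  have h15 := DVal.seg mono hcon hv ok15 h14
  have h16 := DVal.seg mono hcon hv ok16 h15
  have h17 := DVal.seg mono hcon hv ok17 h16
  have h18 := DVal.seg mono hcon hv ok18 h17
  have h19 := DVal.seg mono hcon hv ok19 h18
  have h20 := DVal.seg mono hcon hv ok20 h19
  have h21 := DVal.seg mono hcon hv ok21 h20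
  have h22 := DVal.seg mono hcon hv ok22 h21
  have h23 := DVal.seg mono hcon hv ok23 h22
  have h24 := DVal.seg mono hcon hv ok24 h23
  exact not_allSat h24 (by decide +kernel)

end Pool.Agent.H560CM.C4
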