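import Pool.Agent.H560CM.C2
import Pool.Agent.H560CM.C3
import Pool.Agent.H560CM.C4
import Pool.Agent.H560TT.Gadget

/-!
`exGraph` guarantees connected EF1 (outer) allocations for common monotone profiles.
-/

set_option autoImplicit false

namespace Pool.Agent.H560CM

open Finset Pool.Agent.V11103.EF Pool.Agent.H560TT

/-- A common monotone profile: all agents have the same valuation, which is nonnegative and
monotone. -/
def IsCommonMonotone {V : Type} {n : ℕ} (v : Fin n → Finset V → ℝ) : Prop :=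
  ∃ u : Finset V → ℝ, (∀ S, 0 ≤ u S) ∧ (∀ S T, S ⊆ T → u S ≤ u T) ∧ ∀ i, v i = u

/-- `G` universally guarantees connected EF1 (outer) allocations for all common monotone
profiles. -/
def UniversallyGuaranteesCommon {V : Type} [DecidableEq V] (G : SimpleGraph V) : Prop :=
  ∀ n : ℕ, 1 ≤ n → ∀ v : Fin n → Finset V → ℝ, IsCommonMonotone v →
    ∃ A : Fin n → Finset V, IsAllocation A ∧ IsConnectedAllocation G A ∧ IsEF1Outer G v A

theorem exGraph_connected : exGraph.Connected := by
  have h : ∀ y : Fin 10, y = 5 ∨ exGraph.Adj y 5 ∨ ∃ z, exGraph.Adj y z ∧ exGraph.Adj z 5 := by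
    decide
  have : Nonempty (Fin 10) := ⟨5⟩
  have key : ∀ y : Fin 10, exGraph.Reachable y 5 := by
    intro y
    rcases h y with h | h | ⟨z, h1, h2⟩
    · rw [h]
    · exact h.reachable
    · exact h1.reachable.trans h2.reachable
  exact ⟨fun a b => (key a).trans (key b).symm⟩

/-- the outer vertices of `exGraph` -/
def exD (p : (k : Fin 3) × Fin (![1, 2, 2] k)) : Fin 10 :=
  ![![0, 0], ![1, 2], ![3, 4]] p.1 (Fin.ofNat 2 p.2.val)

theorem exD_inj : ∀ p q, exD p = exD q → p = q := by decide

theorem exD_K : ∀ p (k : Fin 3), exD p ∉ (![{5}, {6, 7}, {8, 9}] : Fin 3 → Finset (Fin 10)) k := by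
  decide

theorem exD_adj : ∀ p y, exGraph.Adj (exD p) y →
    y = exD p ∨ y ∈ (![{5}, {6, 7}, {8, 9}] : Fin 3 → Finset (Fin 10)) p.1 := by decide

theorem tight_exGraph : TightTriple exGraph ![1, 2, 2] := by
  refine ⟨![{5}, {6, 7}, {8, 9}], fun p => {exD p}, by decide, by decide, fun p => ⟨_, rfl⟩,
    fun p q hpq => ?_, fun p k x hx => ?_, fun p x hx y hy => ?_⟩
  · rw [Set.disjoint_singleton]
    exact fun h => hpq (exD_inj _ _ h)
  · rw [Set.mem_singleton_iff] at hx
    subst hx
    exact exD_K p k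
  · rw [Set.mem_singleton_iff] at hx
    subst hx
    exact exD_adj p y hy

theorem exGraph_not_traceable : ¬ Traceable exGraph :=
  not_traceable_of_tight (by decide) tight_exGraph

theorem large {n : ℕ} (hn : 5 ≤ n) (v : Fin n → Finset (Fin 10) → ℝ)
    (mono : ∀ i S T, S ⊆ T → v i S ≤ v i T) :
    ∃ A : Fin n → Finset (Fin 10), IsAllocation A ∧ IsConnectedAllocation exGraph A ∧
      IsEF1Outer exGraph v A := by
  refine Large.main (K := {5, 6, 7, 8, 9}) (m := ![5, 6, 7, 8, 9, 5, 6, 7, 8, 9]) (by decide)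
    (by decide) (by decide) ?_ v mono
  have : ({5, 6, 7, 8, 9} : Finset (Fin 10)).card = 5 := by decide
  omega

theorem exGraph_common : UniversallyGuaranteesCommon exGraph := by
  rintro n hn v ⟨u, _, mono, hv⟩
  obtain rfl : v = fun _ => u := funext hv
  rcases (by omega : n = 1 ∨ n = 2 ∨ n = 3 ∨ n = 4 ∨ 5 ≤ n) with rfl | rfl | rfl | rfl | h
  · refine ⟨fun _ => univ, ⟨fun i j hij => absurd (Subsingleton.elim i j) hij,
      fun x => ⟨0, mem_univ x⟩⟩, fun i _ => ?_, fun i j => Or.inl le_rfl⟩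
    rw [Finset.coe_univ]
    have h := exGraph_connected
    exact (SimpleGraph.induceUnivIso exGraph).connected_iff.2 h
  · exact of_checkP C2.ok mono
  · exact C3.fin mono
  · exact C4.fin mono
  · exact large h _ fun _ => mono

end Pool.Agent.H560CM
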