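import Pool.Agent.H560CM.Sem

/-!
Loading of clauses, the first kind of certificates (comparisons of values).
-/

set_option autoImplicit false

namespace Pool.Agent.H560CM

open Finset Pool.Agent.V11103.EF

/-- the code of the variable `i` -/
noncomputable def tbl (tb i : ℕ) : ℕ :=
  Nat.mod (Nat.shiftRight tb (Nat.mul 48 i)) 281474976710656

noncomputable def dig (m : ℕ) : ℕ → List ℕ :=
  Nat.rec (motive := fun _ => ℕ → List ℕ) (fun _ => [])
    (fun _ ih s => Nat.mod s 65536 :: ih (Nat.div s 65536)) m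

/-- mask of a list of indices -/
def mk : List ℕ → ℕ
  | [] => 0
  | i :: l => Nat.lor (Nat.shiftLeft 1 i) (mk l)

theorem mk_bit {i : ℕ} : ∀ {l : List ℕ}, (mk l).testBit i = true ↔ i ∈ l
  | [] => by simp [mk]
  | a :: l => by
    show (Nat.lor (Nat.shiftLeft 1 a) (mk l)).testBit i = true ↔ _
    rw [lor_bit, mk_bit, List.mem_cons]
    have : (Nat.shiftLeft 1 a).testBit i = true ↔ i = a := by
      show (1 <<< a).testBit i = true ↔ _
      rw [Nat.shiftLeft_eq, one_mul, Nat.testBit_two_pow, decide_eq_true_eq]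
      exact eq_comm
    rw [this]

theorem sat_pos {val : ℕ → Prop} {l : List ℕ} (n : ℕ) (h : ∃ i ∈ l, val i) : Sat val (mk l) n := by
  obtain ⟨i, hi, h⟩ := h
  exact Or.inl ⟨i, mk_bit.2 hi, h⟩

theorem sat_neg {val : ℕ → Prop} {l : List ℕ} (p : ℕ) (h : ∃ i ∈ l, ¬ val i) :
    Sat val p (mk l) := by
  obtain ⟨i, hi, h⟩ := h
  exact Or.inr ⟨i, mk_bit.2 hi, h⟩

/-- load the clauses `cs`, checked by `ck` -/
noncomputable def load (ck : ℕ → (ℕ → ℕ → Bool) → Bool) (cs : List ℕ) :
    ℕ → Tr → (ℕ → Tr → Bool) → Bool :=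
  List.rec (motive := fun _ => ℕ → Tr → (ℕ → Tr → Bool) → Bool) (fun k t f => f k t)
    (fun c _ ih k t f => ck c fun p n => force (salt p (Nat.mul k 7)) fun p =>
      force (salt n (Nat.add (Nat.mul k 7) 3)) fun n =>
      force (Nat.add k 1) fun k1 => insK 14 t k p n fun t1 => ih k1 t1 f) cs

theorem load_sound {val : ℕ → Prop} {ck : ℕ → (ℕ → ℕ → Bool) → Bool}
    (hck : ∀ c k, ck c k = true → ∃ p n, Sat val p n ∧ k p n = true) (cs : List ℕ) :
    ∀ (k : ℕ) (t : Tr) (f : ℕ → Tr → Bool), Good val t → load ck cs k t f = true →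
      ∃ k' t', Good val t' ∧ f k' t' = true := by
  induction cs with
  | nil => intro k t f ht h; exact ⟨k, t, ht, h⟩
  | cons c cs ih =>
    intro k t f ht h
    obtain ⟨p, n, hs, h⟩ := hck _ _ h
    rw [force_eq, force_eq, force_eq] at h
    obtain ⟨t1, ht1, h⟩ := insK_sound (by rw [sh_salt, sh_salt]; exact hs) 14 t k _ ht h
    exact ih _ _ _ ht1 h

noncomputable def check (ck : ℕ → (ℕ → ℕ → Bool) → Bool) (cs steps : List ℕ) : Bool :=
  load ck cs 0 .nil fun k t => run steps k t

theorem check_sound {val : ℕ → Prop} {ck : ℕ → (ℕ → ℕ → Bool) → Bool}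
    (hck : ∀ c k, ck c k = true → ∃ p n, Sat val p n ∧ k p n = true) {cs steps : List ℕ}
    (h : check ck cs steps = true) : False := by
  obtain ⟨k, t, ht, h⟩ := load_sound hck cs 0 .nil _ trivial h
  exact run_sound steps k t ht h

section P

variable (v : Finset (Fin 10) → ℝ)

/-- meaning of the codes: kind `0`: `w a < w b`; kind `1`: `a` envies `b` also after the removal of
any outer vertex -/
def MP (c : ℕ) : Prop :=
  v (toS (c % 1024)) < v (toS (c / 1024 % 1024)) ∧
    (c / 1048576 ≠ 0 → ∀ b, remB (c / 1024 % 1024) b = true → v (toS (c % 1024)) < v (toS b))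

noncomputable def kind (c : ℕ) : ℕ := Nat.div c 1048576
noncomputable def fa (c : ℕ) : ℕ := Nat.mod c 1024
noncomputable def fb (c : ℕ) : ℕ := Nat.mod (Nat.div c 1024) 1024

noncomputable def cycB (tb a0 : ℕ) (l : List ℕ) : ℕ → Bool :=
  List.rec (motive := fun _ => ℕ → Bool) (fun b => Nat.beq (Nat.land b a0) b)
    (fun i _ ih b => Nat.beq (Nat.land b (fa (tbl tb i))) b && ih (fb (tbl tb i))) l

theorem cycB_sound {v : Finset (Fin 10) → ℝ} (mono : ∀ S T, S ⊆ T → v S ≤ v T) {tb a0 : ℕ}
    (l : List ℕ) : ∀ b, cycB tb a0 l b = true → v (toS a0) < v (toS b) →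
      (∀ i ∈ l, MP v (tbl tb i)) → False := by
  induction l with
  | nil =>
    intro b h hb _
    have h2 := mono _ _ (toS_mono (Nat.eq_of_beq_eq_true h))
    exact absurd hb (not_lt.2 h2)
  | cons i l ih =>
    intro b h hb hl
    have h' : (Nat.beq (Nat.land b (fa (tbl tb i))) b && cycB tb a0 l (fb (tbl tb i))) = true := h
    rw [Bool.and_eq_true] at h'
    have h2 := mono _ _ (toS_mono (Nat.eq_of_beq_eq_true h'.1))
    have h3 := (hl i (by simp)).1
    exact ih _ h'.2 (lt_of_lt_of_le hb (h2.trans h3.le)) fun j hj => hl j (by simp [hj])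

noncomputable def okA (tb n : ℕ) (ms is : List ℕ) : Bool :=
  Nat.beq ms.length n && (partB ms && ms.all fun a => ms.all fun b => Nat.beq a b || (pow2 b ||
    is.any fun i => Nat.beq (tbl tb i) (Nat.add 1048576 (Nat.add (Nat.mul 1024 b) a))))

noncomputable def okB (tb : ℕ) (l : List ℕ) (k : ℕ → ℕ → Bool) : Bool :=
  List.rec (motive := fun _ => Bool) false (fun i l' _ =>
    List.rec (motive := fun _ => Bool) false (fun j _ _ =>
      cond (Nat.beq (kind (tbl tb i)) 1 && (Nat.beq (kind (tbl tb j)) 0 &&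
        (Nat.beq (fa (tbl tb i)) (fa (tbl tb j)) && remB (fb (tbl tb i)) (fb (tbl tb j)))))
        (k (Nat.shiftLeft 1 j) (Nat.shiftLeft 1 i)) false) l') l

noncomputable def okC (tb : ℕ) (l : List ℕ) (k : ℕ → ℕ → Bool) : Bool :=
  List.rec (motive := fun _ => Bool) false (fun i l' _ =>
    cond (cycB tb (fa (tbl tb i)) l' (fb (tbl tb i))) (k 0 (mk (i :: l'))) false) l

noncomputable def ckP (tb n c : ℕ) (k : ℕ → ℕ → Bool) : Bool :=
  cond (Nat.beq (Nat.mod c 65536) 0)
    (cond (okA tb n ((dig (Nat.mod (Nat.div c 65536) 65536) (Nat.div c 4294967296)).take n)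
        ((dig (Nat.mod (Nat.div c 65536) 65536) (Nat.div c 4294967296)).drop n))
      (k (mk ((dig (Nat.mod (Nat.div c 65536) 65536) (Nat.div c 4294967296)).drop n)) 0) false)
    (cond (Nat.beq (Nat.mod c 65536) 1)
      (okB tb (dig (Nat.mod (Nat.div c 65536) 65536) (Nat.div c 4294967296)) k)
      (okC tb (dig (Nat.mod (Nat.div c 65536) 65536) (Nat.div c 4294967296)) k))

theorem bit_shift {i j : ℕ} : (Nat.shiftLeft 1 i).testBit j = true ↔ j = i := by
  show (1 <<< i).testBit j = true ↔ _
  rw [Nat.shiftLeft_eq, one_mul, Nat.testBit_two_pow, decide_eq_true_eq]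
  exact eq_comm

/-- no allocation is EF1 -/
def NoEF1 (n : ℕ) : Prop :=
  ∀ A : Fin n → Finset (Fin 10), IsAllocation A → IsConnectedAllocation exGraph A →
    ¬ IsEF1Outer exGraph (fun _ => v) A

variable {v}

theorem noEF1_pair (mono : ∀ S T, S ⊆ T → v S ≤ v T) {n : ℕ} (hno : NoEF1 v n) {ms : List ℕ}
    (hn : ms.length = n) (h : partB ms = true) : ∃ a ∈ ms, ∃ b ∈ ms, a ≠ b ∧ pow2 b = false ∧
      v (toS a) < v (toS b) ∧ ∀ b', remB b b' = true → v (toS a) < v (toS b') := by
  obtain ⟨h1, h2, h3⟩ := partB_alloc hn h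
  have h4 := hno _ h1 h2
  unfold IsEF1Outer at h4
  push Not at h4
  obtain ⟨i, j, h5, h6⟩ := h4
  have hi : ms[i.val]'(by rw [hn]; exact i.2) ∈ ms := List.getElem_mem _
  have hj : ms[j.val]'(by rw [hn]; exact j.2) ∈ ms := List.getElem_mem _
  refine ⟨_, hi, _, hj, fun h => ?_, ?_, h5, fun b' hb' => ?_⟩
  · have : alloc ms hn i = alloc ms hn j := congrArg toS h
    rw [this] at h5
    exact lt_irrefl _ h5
  · by_contra hcon
    rw [Bool.not_eq_false] at hcon
    have hb0 : ms[j.val]'(by rw [hn]; exact j.2) ≠ 0 := by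
      intro h0
      have : alloc ms hn j = ∅ := by
        show toS _ = ∅
        rw [h0, toS_zero]
      rw [this] at h5
      exact absurd (mono ∅ (alloc ms hn i) (Finset.empty_subset _)) (not_le.2 h5)
    have hlt : (ms[j.val]'(by rw [hn]; exact j.2)).log2 < 10 := by
      rw [Nat.log2_lt hb0]; exact h3 _ hj
    have he : (alloc ms hn j).erase ⟨_, hlt⟩ = ∅ := by
      rw [Finset.eq_empty_iff_forall_notMem]
      intro x hx
      rw [Finset.mem_erase] at hx
      apply hx.1
      have := hx.2
      unfold alloc at this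
      rw [mem_toS, bit_pow2 hcon] at this
      exact Fin.ext this
    have ho : IsOuter exGraph (alloc ms hn j) ⟨_, hlt⟩ := by
      refine ⟨?_, Or.inl he⟩
      unfold alloc
      rw [mem_toS, bit_pow2 hcon]
    have := h6 _ ho
    rw [he] at this
    exact absurd (mono ∅ (alloc ms hn i) (Finset.empty_subset _)) (not_le.2 this)
  · obtain ⟨o, ho, he⟩ := remB_outer (h3 _ hj) hb'
    have := h6 o ho
    unfold alloc at this
    rw [he] at this
    exact this

theorem ckP_sound (mono : ∀ S T, S ⊆ T → v S ≤ v T) {n : ℕ} (hno : NoEF1 v n) (tb c : ℕ)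
    (k : ℕ → ℕ → Bool) (h : ckP tb n c k = true) :
    ∃ p m, Sat (fun i => MP v (tbl tb i)) p m ∧ k p m = true := by
  unfold ckP at h
  generalize dig (Nat.mod (Nat.div c 65536) 65536) (Nat.div c 4294967296) = l at h
  cases h0 : Nat.beq (Nat.mod c 65536) 0 with
  | true =>
    rw [h0, cond_true] at h
    cases h1 : okA tb n (l.take n) (l.drop n) with
    | false => rw [h1] at h; exact absurd h (by simp)
    | true =>
      rw [h1, cond_true] at h
      refine ⟨_, _, ?_, h⟩
      unfold okA at h1
      rw [Bool.and_eq_true, Bool.and_eq_true, List.all_eq_true] at h1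
      obtain ⟨h2, h3, h4⟩ := h1
      have hpa := partB_alloc (Nat.eq_of_beq_eq_true h2) h3
      obtain ⟨a, ha, b, hb, hab, hb2, hlt, hrem⟩ :=
        noEF1_pair mono hno (Nat.eq_of_beq_eq_true h2) h3
      have h5 := h4 a ha
      rw [List.all_eq_true] at h5
      have h6 := h5 b hb
      rw [Bool.or_eq_true, Bool.or_eq_true, List.any_eq_true] at h6
      rcases h6 with h6 | h6 | ⟨i, hi, h6⟩
      · exact absurd (Nat.eq_of_beq_eq_true h6) hab
      · rw [hb2] at h6; exact absurd h6 (by simp)
      · apply sat_pos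
        refine ⟨i, hi, ?_⟩
        have h7 : tbl tb i = 1048576 + (1024 * b + a) := Nat.eq_of_beq_eq_true h6
        have ha' := hpa.2.2 a ha
        have hb' := hpa.2.2 b hb
        show MP v (tbl tb i)
        rw [h7]
        have e1 : (1048576 + (1024 * b + a)) % 1024 = a := by omega
        have e2 : (1048576 + (1024 * b + a)) / 1024 % 1024 = b := by omega
        unfold MP
        rw [e1, e2]
        exact ⟨hlt, fun _ => hrem⟩
  | false =>
    rw [h0, cond_false] at h
    cases h1 : Nat.beq (Nat.mod c 65536) 1 with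
    | true =>
      rw [h1, cond_true] at h
      rcases l with _ | ⟨i, _ | ⟨j, l⟩⟩
      · exact absurd h (by simp [okB])
      · exact absurd h (by simp [okB])
      · have h' : cond (Nat.beq (kind (tbl tb i)) 1 && (Nat.beq (kind (tbl tb j)) 0 &&
          (Nat.beq (fa (tbl tb i)) (fa (tbl tb j)) && remB (fb (tbl tb i)) (fb (tbl tb j)))))
          (k (Nat.shiftLeft 1 j) (Nat.shiftLeft 1 i)) false = true := h
        cases h2 : (Nat.beq (kind (tbl tb i)) 1 && (Nat.beq (kind (tbl tb j)) 0 &&
          (Nat.beq (fa (tbl tb i)) (fa (tbl tb j)) && remB (fb (tbl tb i)) (fb (tbl tb j))))) with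
        | false => rw [h2] at h'; exact absurd h' (by simp)
        | true =>
          rw [h2, cond_true] at h'
          refine ⟨_, _, ?_, h'⟩
          rw [Bool.and_eq_true, Bool.and_eq_true, Bool.and_eq_true] at h2
          obtain ⟨g1, g2, g3, g4⟩ := h2
          by_cases hM : MP v (tbl tb i)
          · left
            refine ⟨j, bit_shift.2 rfl, ?_⟩
            have g1' : tbl tb i / 1048576 = 1 := Nat.eq_of_beq_eq_true g1
            have g2' : tbl tb j / 1048576 = 0 := Nat.eq_of_beq_eq_true g2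
            have g3' : tbl tb i % 1024 = tbl tb j % 1024 := Nat.eq_of_beq_eq_true g3
            have := hM.2 (by rw [g1']; norm_num) _ g4
            refine ⟨?_, fun h => absurd g2' h⟩
            rw [← g3']
            exact this
          · right
            exact ⟨i, bit_shift.2 rfl, hM⟩
    | false =>
      rw [h1, cond_false] at h
      rcases l with _ | ⟨i, l⟩
      · exact absurd h (by simp [okC])
      · have h' : cond (cycB tb (fa (tbl tb i)) l (fb (tbl tb i))) (k 0 (mk (i :: l))) false =
          true := h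
        cases h2 : cycB tb (fa (tbl tb i)) l (fb (tbl tb i)) with
        | false => rw [h2] at h'; exact absurd h' (by simp)
        | true =>
          rw [h2, cond_true] at h'
          refine ⟨_, _, ?_, h'⟩
          apply sat_neg
          by_contra hcon
          push Not at hcon
          exact cycB_sound mono l _ h2 (hcon i (by simp)).1 fun j hj => hcon j (by simp [hj])

/-- certificates of the first kind -/
theorem of_checkP {n tb : ℕ} {cs steps : List ℕ} (h : check (ckP tb n) cs steps = true)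
    (mono : ∀ S T, S ⊆ T → v S ≤ v T) : ∃ A : Fin n → Finset (Fin 10), IsAllocation A ∧
      IsConnectedAllocation exGraph A ∧ IsEF1Outer exGraph (fun _ => v) A := by
  by_contra hcon
  push Not at hcon
  exact check_sound (fun c k => ckP_sound mono (n := n) hcon tb c k) h

end P

end Pool.Agent.H560CM
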