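import Pool.Agent.H560CM.Load

/-!
The second kind of certificates (a threshold value).
-/

set_option autoImplicit false

namespace Pool.Agent.H560CM

open Finset Pool.Agent.V11103.EF

noncomputable def kd (c : ℕ) : ℕ := Nat.div c 1099511627776
noncomputable def ms (c : ℕ) : ℕ := Nat.mod c 1024

/-- the four masks of a code -/
noncomputable def four (c : ℕ) : List ℕ :=
  [Nat.mod c 1024, Nat.mod (Nat.div c 1024) 1024, Nat.mod (Nat.div c 1048576) 1024,
    Nat.mod (Nat.div c 1073741824) 1024]

section D

variable (v : Finset (Fin 10) → ℝ) (τ : ℝ) (tb js : ℕ)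

/-- every mask in the list has an outer vertex whose removal leaves value at most `t` -/
def Low (l : List ℕ) (t : ℝ) : Prop := ∀ a ∈ l, ∃ b, remB a b = true ∧ v (toS b) ≤ t

/-- meaning of the variable `i` with code `c` -/
def MD (c : ℕ) (i : ℕ) : Prop :=
  if c / 1099511627776 = 0 then τ ≤ v (toS (c % 1024))
  else if c / 1099511627776 = 1 then τ < v (toS (c % 1024))
  else if c / 1099511627776 = 2 then ∀ b, remB (c % 1024) b = true → τ ≤ v (toS b)
  else if c / 1099511627776 = 3 then ∀ b, remB (c % 1024) b = true → τ < v (toS b)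
  else if c / 1099511627776 = 4 then ∃ b, remB (c % 1024) b = true ∧ v (toS b) ≤ τ
  else i = js

/-- the variables `i < m` are the partitions -/
noncomputable def okM (tb i j : ℕ) : Bool :=
  Nat.beq (Nat.land (ms (tbl tb i)) (ms (tbl tb j))) (ms (tbl tb i)) &&
    ((Nat.beq (kd (tbl tb i)) 0 && Nat.beq (kd (tbl tb j)) 0) ||
      (Nat.beq (kd (tbl tb i)) 1 && (Nat.beq (kd (tbl tb j)) 1 || Nat.beq (kd (tbl tb j)) 0)))

noncomputable def okR (tb i j : ℕ) : Bool :=
  remB (ms (tbl tb i)) (ms (tbl tb j)) &&
    ((Nat.beq (kd (tbl tb i)) 2 && Nat.beq (kd (tbl tb j)) 0) ||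
      (Nat.beq (kd (tbl tb i)) 3 && Nat.beq (kd (tbl tb j)) 1))

noncomputable def okN (tb i : ℕ) (l : List ℕ) : Bool :=
  Nat.beq (kd (tbl tb i)) 4 && [0, 1, 2, 3, 4, 5, 6, 7, 8, 9].all fun o =>
    !remB (ms (tbl tb i)) (Nat.xor (ms (tbl tb i)) (Nat.shiftLeft 1 o)) ||
      l.any fun j => Nat.beq (tbl tb j)
        (Nat.add 1099511627776 (Nat.xor (ms (tbl tb i)) (Nat.shiftLeft 1 o)))

noncomputable def okX (tb m i j : ℕ) : Bool :=
  Nat.blt i m && (Nat.beq (kd (tbl tb i)) 5 && (Nat.beq (kd (tbl tb j)) 4 &&
    (four (tbl tb i)).any fun a => Nat.beq a (ms (tbl tb j))))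

noncomputable def okH (tb m i : ℕ) (l : List ℕ) : Bool :=
  Nat.blt i m && (four (tbl tb i)).all fun a =>
    l.any fun j => Nat.beq (tbl tb j) (Nat.add 2199023255552 a)

noncomputable def okG (tb m i : ℕ) (p n : List ℕ) : Bool :=
  Nat.blt i m && (partB (four (tbl tb i)) &&
    ((four (tbl tb i)).all (fun a => p.any fun j => Nat.beq (tbl tb j) (Nat.add 3298534883328 a)) &&
    (four (tbl tb i)).all (fun a => n.any fun j => Nat.beq (tbl tb j) a)))

noncomputable def okZ (tb m : ℕ) : Bool :=
  Nat.rec (motive := fun _ => Bool) true (fun j ih => Nat.beq (kd (tbl tb j)) 5 && ih) m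

noncomputable def ckD (tb m n c : ℕ) (k : ℕ → ℕ → Bool) : Bool :=
  cond (Nat.beq (Nat.mod c 65536) 6)
    (cond (okZ tb m && Nat.blt 0 m) (k (Nat.sub (Nat.shiftLeft 1 m) 1) 0) false)
  (List.rec (motive := fun _ => Bool) false (fun i l _ =>
    cond (Nat.beq (Nat.mod c 65536) 2) (cond (okN tb i l) (k 0 (mk (i :: l))) false)
    (cond (Nat.beq (Nat.mod c 65536) 4) (cond (okH tb m i l) (k (mk l) 0) false)
    (cond (Nat.beq (Nat.mod c 65536) 5) (cond (okG tb m i (l.take n) (l.drop n))
      (k (mk (l.take n)) (mk (l.drop n))) false)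
    (List.rec (motive := fun _ => Bool) false (fun j _ _ =>
      cond (Nat.beq (Nat.mod c 65536) 0) (cond (okM tb i j)
        (k (Nat.shiftLeft 1 j) (Nat.shiftLeft 1 i)) false)
      (cond (Nat.beq (Nat.mod c 65536) 1) (cond (okR tb i j)
        (k (Nat.shiftLeft 1 j) (Nat.shiftLeft 1 i)) false)
      (cond (okX tb m i j) (k (Nat.shiftLeft 1 j) (Nat.shiftLeft 1 i)) false))) l))))
    (dig (Nat.mod (Nat.div c 65536) 65536) (Nat.div c 4294967296)))

variable {v τ tb js}

theorem MD0 {c i : ℕ} (h : c / 1099511627776 = 0) : MD v τ js c i ↔ τ ≤ v (toS (c % 1024)) := by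
  unfold MD; rw [if_pos h]

theorem MD1 {c i : ℕ} (h : c / 1099511627776 = 1) : MD v τ js c i ↔ τ < v (toS (c % 1024)) := by
  unfold MD; rw [if_neg (by omega), if_pos h]

theorem MD2 {c i : ℕ} (h : c / 1099511627776 = 2) : MD v τ js c i ↔
    ∀ b, remB (c % 1024) b = true → τ ≤ v (toS b) := by
  unfold MD; rw [if_neg (by omega), if_neg (by omega), if_pos h]

theorem MD3 {c i : ℕ} (h : c / 1099511627776 = 3) : MD v τ js c i ↔
    ∀ b, remB (c % 1024) b = true → τ < v (toS b) := by
  unfold MD; rw [if_neg (by omega), if_neg (by omega), if_neg (by omega), if_pos h]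

theorem MD4 {c i : ℕ} (h : c / 1099511627776 = 4) : MD v τ js c i ↔
    ∃ b, remB (c % 1024) b = true ∧ v (toS b) ≤ τ := by
  unfold MD
  rw [if_neg (by omega), if_neg (by omega), if_neg (by omega), if_neg (by omega), if_pos h]

theorem MD5 {c i : ℕ} (h : c / 1099511627776 = 5) : MD v τ js c i ↔ i = js := by
  unfold MD
  rw [if_neg (by omega), if_neg (by omega), if_neg (by omega), if_neg (by omega),
    if_neg (by omega)]

theorem four_lt {c a : ℕ} (h : a ∈ four c) : a < 1024 := by
  unfold four at h
  simp only [List.mem_cons, List.not_mem_nil, or_false] at h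
  rcases h with rfl | rfl | rfl | rfl <;> exact Nat.mod_lt _ (by norm_num)

theorem remB_lt {a b : ℕ} (h : remB a b = true) (ha : a < 1024) : b < 1024 := by
  unfold remB at h
  rw [Bool.and_eq_true] at h
  have : b &&& a = b := Nat.eq_of_beq_eq_true h.1
  have h2 : b &&& a ≤ a := Nat.and_le_right
  omega

theorem remB_xor {a b : ℕ} (h : remB a b = true) (ha : a < 1024) :
    ∃ o, o < 10 ∧ b = Nat.xor a (Nat.shiftLeft 1 o) := by
  have hb := remB_lt h ha
  unfold remB at h
  rw [Bool.and_eq_true, Bool.and_eq_true] at h
  have h1 : Nat.xor a b = 1 <<< (Nat.xor a b).log2 := by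
    rw [Nat.shiftLeft_eq, one_mul]
    exact pow2_log h.2.1
  refine ⟨(Nat.xor a b).log2, ?_, ?_⟩
  · have h2 : Nat.xor a b < 2 ^ 10 := Nat.xor_lt_two_pow (by norm_num; exact ha)
      (by norm_num; exact hb)
    have h0 : Nat.xor a b ≠ 0 := by
      intro h0
      rw [h0] at h1
      simp at h1
    rw [Nat.log2_lt h0]
    exact h2
  · show b = a ^^^ (1 <<< (Nat.xor a b).log2)
    rw [← h1]
    show b = a ^^^ (a ^^^ b)
    rw [← Nat.xor_assoc, Nat.xor_self, Nat.zero_xor]

/-- the threshold -/
theorem exists_tau (v : Finset (Fin 10) → ℝ) {m : ℕ} (F : ℕ → List ℕ)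
    (hF : ∀ i, ∀ a ∈ F i, a < 1024) (hF0 : ∀ i, F i ≠ []) (hm : 0 < m)
    (h0 : ∀ a ∈ F 0, ∃ b, remB a b = true) :
    ∃ (τ : ℝ) (j : ℕ), j < m ∧ Low v (F j) τ ∧
      ∀ i, i < m → ∃ a ∈ F i, ∀ b, remB a b = true → τ ≤ v (toS b) := by
  classical
  let T : Finset ℕ := (range 1024).filter fun c => ∃ i, i < m ∧ Low v (F i) (v (toS c))
  have hT : T.Nonempty := by
    obtain ⟨c, hc, hmax⟩ := Finset.exists_max_image (range 1024) (fun c => v (toS c)) ⟨0, by simp⟩
    refine ⟨c, Finset.mem_filter.2 ⟨hc, 0, hm, fun a ha => ?_⟩⟩
    obtain ⟨b, hb⟩ := h0 a ha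
    exact ⟨b, hb, hmax b (Finset.mem_range.2 (remB_lt hb (hF 0 a ha)))⟩
  obtain ⟨c, hc, hmin⟩ := Finset.exists_min_image T (fun c => v (toS c)) hT
  obtain ⟨_, j, hj, hlow⟩ := Finset.mem_filter.1 hc
  refine ⟨v (toS c), j, hj, hlow, fun i hi => ?_⟩
  by_contra hcon
  push Not at hcon
  choose! b hb1 hb2 using hcon
  obtain ⟨a0, ha0, hmax⟩ := Finset.exists_max_image (F i).toFinset (fun a => v (toS (b a)))
    (List.toFinset_nonempty_iff _ |>.2 (hF0 i))
  rw [List.mem_toFinset] at ha0
  have h1 : b a0 ∈ T := Finset.mem_filter.2
    ⟨Finset.mem_range.2 (remB_lt (hb1 a0 ha0) (hF i a0 ha0)), i, hi, fun a ha =>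
      ⟨b a, hb1 a ha, hmax a (List.mem_toFinset.2 ha)⟩⟩
  exact absurd (hmin _ h1) (not_le.2 (hb2 a0 ha0))

theorem code_mod {k a : ℕ} (ha : a < 1024) : (k * 1099511627776 + a) % 1024 = a := by omega

theorem any_eq {l : List ℕ} {c : ℕ} (h : (l.any fun j => Nat.beq (tbl tb j) c) = true) :
    ∃ j ∈ l, tbl tb j = c := by
  rw [List.any_eq_true] at h
  obtain ⟨j, hj, h⟩ := h
  exact ⟨j, hj, Nat.eq_of_beq_eq_true h⟩

theorem okZ_sound {m : ℕ} (h : okZ tb m = true) : ∀ i, i < m → kd (tbl tb i) = 5 := by
  induction m with
  | zero => intro i hi; omega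
  | succ m ih =>
    intro i hi
    have h' : (Nat.beq (kd (tbl tb m)) 5 && okZ tb m) = true := h
    rw [Bool.and_eq_true] at h'
    rcases Nat.lt_succ_iff_lt_or_eq.1 hi with h1 | h1
    · exact ih h'.2 i h1
    · rw [h1]; exact Nat.eq_of_beq_eq_true h'.1

theorem sat2 {val : ℕ → Prop} {i j : ℕ} (h : val i → val j) :
    Sat val (Nat.shiftLeft 1 j) (Nat.shiftLeft 1 i) := by
  by_cases hi : val i
  · exact Or.inl ⟨j, bit_shift.2 rfl, h hi⟩
  · exact Or.inr ⟨i, bit_shift.2 rfl, hi⟩

theorem ckD_sound (mono : ∀ S T, S ⊆ T → v S ≤ v T) (hno : NoEF1 v 4) {m : ℕ} (hjs : js < m)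
    (hlow : Low v (four (tbl tb js)) τ)
    (hall : ∀ i, i < m → ∃ a ∈ four (tbl tb i), ∀ b, remB a b = true → τ ≤ v (toS b))
    (n c : ℕ) (k : ℕ → ℕ → Bool) (h : ckD tb m n c k = true) :
    ∃ p q, Sat (fun i => MD v τ js (tbl tb i) i) p q ∧ k p q = true := by
  unfold ckD at h
  generalize dig (Nat.mod (Nat.div c 65536) 65536) (Nat.div c 4294967296) = l at h
  cases h6 : Nat.beq (Nat.mod c 65536) 6 with
  | true =>
    rw [h6, cond_true] at h
    cases hz : (okZ tb m && Nat.blt 0 m) with
    | false => rw [hz] at h; exact absurd h (by simp)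
    | true =>
      rw [hz, cond_true] at h
      rw [Bool.and_eq_true] at hz
      refine ⟨_, _, Or.inl ⟨js, ?_, ?_⟩, h⟩
      · show (1 <<< m - 1).testBit js = true
        rw [Nat.shiftLeft_eq, one_mul, Nat.testBit_two_pow_sub_one]
        simpa using hjs
      · exact (MD5 (okZ_sound hz.1 js hjs)).2 rfl
  | false =>
    rw [h6, cond_false] at h
    rcases l with _ | ⟨i, l⟩
    · exact absurd h (by simp)
    simp only at h
    cases h2 : Nat.beq (Nat.mod c 65536) 2 with
    | true =>
      rw [h2, cond_true] at h
      cases hz : okN tb i l with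
      | false => rw [hz] at h; exact absurd h (by simp)
      | true =>
        rw [hz, cond_true] at h
        refine ⟨_, _, ?_, h⟩
        unfold okN at hz
        rw [Bool.and_eq_true, List.all_eq_true] at hz
        obtain ⟨hk, hz⟩ := hz
        apply sat_neg
        by_contra hcon
        push Not at hcon
        have hi := hcon i (by simp)
        rw [MD4 (Nat.eq_of_beq_eq_true hk)] at hi
        obtain ⟨b, hb, hbt⟩ := hi
        have hlt : tbl tb i % 1024 < 1024 := Nat.mod_lt _ (by norm_num)
        obtain ⟨o, ho, hbo⟩ := remB_xor hb hlt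
        have hz' := hz o (by
          have : o ∈ [0, 1, 2, 3, 4, 5, 6, 7, 8, 9] := by
            simp only [List.mem_cons, List.not_mem_nil, or_false]; omega
          exact this)
        rw [Bool.or_eq_true] at hz'
        have hbo' : Nat.xor (ms (tbl tb i)) (Nat.shiftLeft 1 o) = b := hbo.symm
        rw [hbo'] at hz'
        rcases hz' with hz' | hz'
        · have : remB (ms (tbl tb i)) b = true := hb
          rw [this] at hz'
          simp at hz'
        · obtain ⟨j, hj, hjc⟩ := any_eq hz'
          have hbl := remB_lt hb hlt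
          have hjc' : tbl tb j = 1 * 1099511627776 + b := by
            rw [hjc]; show 1099511627776 + b = _; ring
          have h3 := hcon j (by simp [hj])
          rw [MD1 (by rw [hjc']; omega), hjc', code_mod hbl] at h3
          exact absurd hbt (not_le.2 h3)
    | false =>
      rw [h2, cond_false] at h
      cases h4 : Nat.beq (Nat.mod c 65536) 4 with
      | true =>
        rw [h4, cond_true] at h
        cases hz : okH tb m i l with
        | false => rw [hz] at h; exact absurd h (by simp)
        | true =>
          rw [hz, cond_true] at h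
          refine ⟨_, _, ?_, h⟩
          unfold okH at hz
          rw [Bool.and_eq_true, List.all_eq_true] at hz
          obtain ⟨him, hz⟩ := hz
          have him' : i < m := by simpa using him
          obtain ⟨a, ha, hat⟩ := hall i him'
          obtain ⟨j, hj, hjc⟩ := any_eq (hz a ha)
          have hal := four_lt ha
          have hjc' : tbl tb j = 2 * 1099511627776 + a := by
            rw [hjc]; show 2199023255552 + a = _; ring
          apply sat_pos
          refine ⟨j, hj, ?_⟩
          rw [MD2 (by rw [hjc']; omega), hjc', code_mod hal]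
          exact hat
      | false =>
        rw [h4, cond_false] at h
        cases h5 : Nat.beq (Nat.mod c 65536) 5 with
        | true =>
          rw [h5, cond_true] at h
          cases hz : okG tb m i (l.take n) (l.drop n) with
          | false => rw [hz] at h; exact absurd h (by simp)
          | true =>
            rw [hz, cond_true] at h
            refine ⟨_, _, ?_, h⟩
            unfold okG at hz
            rw [Bool.and_eq_true, Bool.and_eq_true, Bool.and_eq_true, List.all_eq_true,
              List.all_eq_true] at hz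
            obtain ⟨him, hpart, hp, hn⟩ := hz
            by_cases hex : ∃ a ∈ four (tbl tb i), ∀ b, remB a b = true → τ < v (toS b)
            · obtain ⟨a, ha, hat⟩ := hex
              obtain ⟨j, hj, hjc⟩ := any_eq (hp a ha)
              have hal := four_lt ha
              have hjc' : tbl tb j = 3 * 1099511627776 + a := by
                rw [hjc]; show 3298534883328 + a = _; ring
              apply sat_pos
              refine ⟨j, hj, ?_⟩
              rw [MD3 (by rw [hjc']; omega), hjc', code_mod hal]
              exact hat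
            · push Not at hex
              have hex2 : ∃ a ∈ four (tbl tb i), v (toS a) < τ := by
                by_contra hcon
                push Not at hcon
                have hlen : (four (tbl tb i)).length = 4 := rfl
                obtain ⟨g1, g2, g3⟩ := partB_alloc hlen hpart
                refine hno _ g1 g2 fun x y => Or.inr ?_
                have hy : (four (tbl tb i))[y.val]'(by rw [hlen]; exact y.2) ∈ four (tbl tb i) :=
                  List.getElem_mem _
                have hx : (four (tbl tb i))[x.val]'(by rw [hlen]; exact x.2) ∈ four (tbl tb i) :=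
                  List.getElem_mem _
                obtain ⟨b, hb, hbt⟩ := hex _ hy
                obtain ⟨o, ho, he⟩ := remB_outer (g3 _ hy) hb
                refine ⟨o, ho, ?_⟩
                show v ((alloc _ hlen y).erase o) ≤ v (alloc _ hlen x)
                unfold alloc
                rw [he]
                exact hbt.trans (hcon _ hx)
              obtain ⟨a, ha, hat⟩ := hex2
              obtain ⟨j, hj, hjc⟩ := any_eq (hn a ha)
              have hal := four_lt ha
              have hjc' : tbl tb j = 0 * 1099511627776 + a := by rw [hjc]; ring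
              apply sat_neg
              refine ⟨j, hj, ?_⟩
              rw [MD0 (by rw [hjc']; omega), hjc', code_mod hal]
              exact not_le.2 hat
        | false =>
          rw [h5, cond_false] at h
          rcases l with _ | ⟨j, l⟩
          · exact absurd h (by simp)
          simp only at h
          cases h0 : Nat.beq (Nat.mod c 65536) 0 with
          | true =>
            rw [h0, cond_true] at h
            cases hz : okM tb i j with
            | false => rw [hz] at h; exact absurd h (by simp)
            | true =>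
              rw [hz, cond_true] at h
              refine ⟨_, _, ?_, h⟩
              unfold okM at hz
              rw [Bool.and_eq_true, Bool.or_eq_true, Bool.and_eq_true, Bool.and_eq_true,
                Bool.or_eq_true] at hz
              obtain ⟨hs, hz⟩ := hz
              have hle := mono _ _ (toS_mono (Nat.eq_of_beq_eq_true hs))
              apply sat2
              intro hi
              rcases hz with ⟨g1, g2⟩ | ⟨g1, g2 | g2⟩
              · rw [MD0 (Nat.eq_of_beq_eq_true g1)] at hi
                rw [MD0 (Nat.eq_of_beq_eq_true g2)]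
                exact hi.trans hle
              · rw [MD1 (Nat.eq_of_beq_eq_true g1)] at hi
                rw [MD1 (Nat.eq_of_beq_eq_true g2)]
                exact lt_of_lt_of_le hi hle
              · rw [MD1 (Nat.eq_of_beq_eq_true g1)] at hi
                rw [MD0 (Nat.eq_of_beq_eq_true g2)]
                exact hi.le.trans hle
          | false =>
            rw [h0, cond_false] at h
            cases h1 : Nat.beq (Nat.mod c 65536) 1 with
            | true =>
              rw [h1, cond_true] at h
              cases hz : okR tb i j with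
              | false => rw [hz] at h; exact absurd h (by simp)
              | true =>
                rw [hz, cond_true] at h
                refine ⟨_, _, ?_, h⟩
                unfold okR at hz
                rw [Bool.and_eq_true, Bool.or_eq_true, Bool.and_eq_true, Bool.and_eq_true] at hz
                obtain ⟨hs, hz⟩ := hz
                apply sat2
                intro hi
                rcases hz with ⟨g1, g2⟩ | ⟨g1, g2⟩
                · rw [MD2 (Nat.eq_of_beq_eq_true g1)] at hi
                  rw [MD0 (Nat.eq_of_beq_eq_true g2)]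
                  exact hi _ hs
                · rw [MD3 (Nat.eq_of_beq_eq_true g1)] at hi
                  rw [MD1 (Nat.eq_of_beq_eq_true g2)]
                  exact hi _ hs
            | false =>
              rw [h1, cond_false] at h
              cases hz : okX tb m i j with
              | false => rw [hz] at h; exact absurd h (by simp)
              | true =>
                rw [hz, cond_true] at h
                refine ⟨_, _, ?_, h⟩
                unfold okX at hz
                rw [Bool.and_eq_true, Bool.and_eq_true, Bool.and_eq_true] at hz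
                obtain ⟨_, g1, g2, g3⟩ := hz
                apply sat2
                intro hi
                rw [MD5 (Nat.eq_of_beq_eq_true g1)] at hi
                rw [MD4 (Nat.eq_of_beq_eq_true g2)]
                rw [List.any_eq_true] at g3
                obtain ⟨a, ha, hae⟩ := g3
                have hae' : a = tbl tb j % 1024 := Nat.eq_of_beq_eq_true hae
                subst hi
                have := hlow a ha
                rw [hae'] at this
                exact this

/-- test for an outer vertex -/
noncomputable def hasOut (a : ℕ) : Bool :=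
  [0, 1, 2, 3, 4, 5, 6, 7, 8, 9].any fun o => remB a (Nat.xor a (Nat.shiftLeft 1 o))

/-- certificates of the second kind -/
theorem of_checkD {tb m : ℕ} {cs steps : List ℕ} (h : check (ckD tb m 4) cs steps = true)
    (hm : 0 < m) (h0 : (four (tbl tb 0)).all hasOut = true)
    {v : Finset (Fin 10) → ℝ} (mono : ∀ S T, S ⊆ T → v S ≤ v T) :
    ∃ A : Fin 4 → Finset (Fin 10), IsAllocation A ∧
      IsConnectedAllocation exGraph A ∧ IsEF1Outer exGraph (fun _ => v) A := by
  by_contra hcon
  push Not at hcon
  obtain ⟨τ, js, hjs, hlow, hall⟩ := exists_tau v (m := m) (fun i => four (tbl tb i))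
    (fun i a ha => four_lt ha) (fun i => by simp [four]) hm (fun a ha => by
      rw [List.all_eq_true] at h0
      have := h0 a ha
      unfold hasOut at this
      rw [List.any_eq_true] at this
      obtain ⟨o, _, ho⟩ := this
      exact ⟨_, ho⟩)
  exact check_sound (fun c k => ckD_sound mono hcon hjs hlow hall 4 c k) h

end D

end Pool.Agent.H560CM
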