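import Mathlib

/-!
A small checker for refutations by unit propagation, evaluated by the kernel.
-/

set_option autoImplicit false

namespace Pool.Agent.H560CM

/-- the clause with positive literals in the mask `p` and negative literals in the mask `n` -/
def Sat (val : ℕ → Prop) (p n : ℕ) : Prop :=
  (∃ i, p.testBit i = true ∧ val i) ∨ ∃ i, n.testBit i = true ∧ ¬ val i

/-- `f x`, with evaluation of `x` first -/
noncomputable def force (x : ℕ) (f : ℕ → Bool) : Bool :=
  Nat.rec (motive := fun _ => Bool) (f 0) (fun n _ => f (Nat.succ n)) x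

theorem force_eq (x : ℕ) (f : ℕ → Bool) : force x f = f x := by cases x <;> rfl

/-- the mask in a salted mask -/
noncomputable def sh (x : ℕ) : ℕ := Nat.shiftRight x 64

/-- a mask with a salt (for distinct hash values in the kernel's caches) -/
noncomputable def salt (x y : ℕ) : ℕ := Nat.add (Nat.shiftLeft x 64) (Nat.mod y 1152921504606846976)

theorem sh_salt (x y : ℕ) : sh (salt x y) = x := by
  show (x <<< 64 + y % 1152921504606846976) >>> 64 = x
  rw [Nat.shiftRight_eq_div_pow, Nat.shiftLeft_eq]
  omega

inductive Tr : Type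
  | nil : Tr
  | tip : ℕ → ℕ → Tr
  | bin : Tr → Tr → Tr

/-- all clauses in the tree hold -/
def Good (val : ℕ → Prop) : Tr → Prop
  | .nil => True
  | .tip p n => Sat val (sh p) (sh n)
  | .bin l r => Good val l ∧ Good val r

/-- look up the clause with number `k` -/
noncomputable def look (f : ℕ → ℕ → Bool) (t : Tr) : ℕ → Bool :=
  Tr.rec (motive := fun _ => ℕ → Bool) (fun _ => false) (fun p n _ => f p n)
    (fun _ _ ihl ihr k => Bool.rec (motive := fun _ => Bool) (ihr (Nat.div k 2))
      (ihl (Nat.div k 2)) (Nat.beq (Nat.mod k 2) 0)) t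

theorem brec_eq (b x y : Bool) : Bool.rec (motive := fun _ => Bool) x y b = cond b y x := by
  cases b <;> rfl

theorem look_sound {val : ℕ → Prop} {f : ℕ → ℕ → Bool} {t : Tr} (ht : Good val t) :
    ∀ k, look f t k = true → ∃ p n, Sat val (sh p) (sh n) ∧ f p n = true := by
  induction t with
  | nil => intro k h; exact absurd h (by simp [look])
  | tip p n => intro k h; exact ⟨p, n, ht, h⟩
  | bin l r ihl ihr =>
    intro k h
    have h' : Bool.rec (motive := fun _ => Bool) (look f r (Nat.div k 2)) (look f l (Nat.div k 2))
      (Nat.beq (Nat.mod k 2) 0) = true := h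
    rw [brec_eq] at h'
    cases hb : Nat.beq (Nat.mod k 2) 0 with
    | true => rw [hb] at h'; exact ihl ht.1 _ h'
    | false => rw [hb] at h'; exact ihr ht.2 _ h'

/-- insert the clause with number `k` -/
noncomputable def ins (d : ℕ) : Tr → ℕ → ℕ → ℕ → Tr :=
  Nat.rec (motive := fun _ => Tr → ℕ → ℕ → ℕ → Tr) (fun _ _ p n => .tip p n)
    (fun _ ih t k p n =>
      Tr.rec (motive := fun _ => Tr)
        (cond (Nat.beq (Nat.mod k 2) 0) (.bin (ih .nil (Nat.div k 2) p n) .nil)
          (.bin .nil (ih .nil (Nat.div k 2) p n)))
        (fun _ _ => .nil)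
        (fun l r _ _ => cond (Nat.beq (Nat.mod k 2) 0) (.bin (ih l (Nat.div k 2) p n) r)
          (.bin l (ih r (Nat.div k 2) p n))) t) d

theorem ins_good {val : ℕ → Prop} {p n : ℕ} (h : Sat val (sh p) (sh n)) (d : ℕ) :
    ∀ (t : Tr) (k : ℕ), Good val t → Good val (ins d t k p n) := by
  induction d with
  | zero => intro t k _; exact h
  | succ d ih =>
    intro t k ht
    cases t with
    | nil =>
      have e : ins (d + 1) .nil k p n = cond (Nat.beq (Nat.mod k 2) 0)
        (.bin (ins d .nil (Nat.div k 2) p n) .nil) (.bin .nil (ins d .nil (Nat.div k 2) p n)) := rfl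
      rw [e]
      cases Nat.beq (Nat.mod k 2) 0 with
      | true => exact ⟨ih _ _ trivial, trivial⟩
      | false => exact ⟨trivial, ih _ _ trivial⟩
    | tip a b =>
      have e : ins (d + 1) (.tip a b) k p n = .nil := rfl
      rw [e]
      trivial
    | bin l r =>
      have e : ins (d + 1) (.bin l r) k p n = cond (Nat.beq (Nat.mod k 2) 0)
        (.bin (ins d l (Nat.div k 2) p n) r) (.bin l (ins d r (Nat.div k 2) p n)) := rfl
      rw [e]
      cases Nat.beq (Nat.mod k 2) 0 with
      | true => exact ⟨ih _ _ ht.1, ht.2⟩
      | false => exact ⟨ht.1, ih _ _ ht.2⟩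

/-- insert the clause with number `k`, then apply `K` -/
noncomputable def insK (d : ℕ) : Tr → ℕ → ℕ → ℕ → (Tr → Bool) → Bool :=
  Nat.rec (motive := fun _ => Tr → ℕ → ℕ → ℕ → (Tr → Bool) → Bool)
    (fun _ _ p n K => K (.tip p n))
    (fun _ ih t k p n K =>
      Tr.rec (motive := fun _ => Bool)
        (Bool.rec (ih .nil (Nat.div k 2) p n fun x => K (.bin .nil x))
          (ih .nil (Nat.div k 2) p n fun x => K (.bin x .nil)) (Nat.beq (Nat.mod k 2) 0))
        (fun _ _ => false)
        (fun l r _ _ => Bool.rec (ih r (Nat.div k 2) p n fun x => K (.bin l x))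
          (ih l (Nat.div k 2) p n fun x => K (.bin x r)) (Nat.beq (Nat.mod k 2) 0)) t) d

theorem insK_sound {val : ℕ → Prop} {p n : ℕ} (h : Sat val (sh p) (sh n)) (d : ℕ) :
    ∀ (t : Tr) (k : ℕ) (K : Tr → Bool), Good val t → insK d t k p n K = true →
      ∃ t', Good val t' ∧ K t' = true := by
  induction d with
  | zero =>
    intro t k K _ hK
    refine ⟨Tr.tip p n, ?_, hK⟩
    exact h
  | succ d ih =>
    intro t k K ht hK
    cases t with
    | nil =>
      have hK' : Bool.rec (motive := fun _ => Bool)
        (insK d .nil (Nat.div k 2) p n fun x => K (.bin .nil x))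
        (insK d .nil (Nat.div k 2) p n fun x => K (.bin x .nil)) (Nat.beq (Nat.mod k 2) 0) =
          true := hK
      cases hb : Nat.beq (Nat.mod k 2) 0 with
      | true =>
        rw [hb] at hK'
        obtain ⟨t', ht', hK'⟩ := ih .nil (Nat.div k 2) (fun x => K (.bin x .nil)) trivial hK'
        exact ⟨.bin t' .nil, ⟨ht', trivial⟩, hK'⟩
      | false =>
        rw [hb] at hK'
        obtain ⟨t', ht', hK'⟩ := ih .nil (Nat.div k 2) (fun x => K (.bin .nil x)) trivial hK'
        exact ⟨.bin .nil t', ⟨trivial, ht'⟩, hK'⟩
    | tip a b => exact absurd hK (by simp [insK])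
    | bin l r =>
      have hK' : Bool.rec (motive := fun _ => Bool)
        (insK d r (Nat.div k 2) p n fun x => K (.bin l x))
        (insK d l (Nat.div k 2) p n fun x => K (.bin x r)) (Nat.beq (Nat.mod k 2) 0) = true := hK
      cases hb : Nat.beq (Nat.mod k 2) 0 with
      | true =>
        rw [hb] at hK'
        obtain ⟨t', ht', hK'⟩ := ih l (Nat.div k 2) (fun x => K (.bin x r)) ht.1 hK'
        exact ⟨.bin t' r, ⟨ht', ht.2⟩, hK'⟩
      | false =>
        rw [hb] at hK'
        obtain ⟨t', ht', hK'⟩ := ih r (Nat.div k 2) (fun x => K (.bin l x)) ht.2 hK'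
        exact ⟨.bin l t', ⟨ht.1, ht'⟩, hK'⟩

/-- is `a` a power of two? -/
noncomputable def pow2 (a : ℕ) : Bool :=
  Nat.rec (motive := fun _ => Bool) false (fun b _ => Nat.beq (Nat.land a b) 0) a

theorem bit_top {x k : ℕ} (h1 : 2 ^ k ≤ x) (h2 : x < 2 ^ (k + 1)) : x.testBit k = true := by
  rw [Nat.testBit_eq_decide_div_mod_eq]
  have : x / 2 ^ k = 1 := by
    apply Nat.div_eq_of_lt_le
    · simpa using h1
    · rw [pow_succ] at h2; omega
  simp [this]

theorem pow2_log {a : ℕ} (h : pow2 a = true) : a = 2 ^ a.log2 := by
  cases a with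
  | zero => exact absurd h (by simp [pow2])
  | succ b =>
    have h1 : (b + 1) &&& b = 0 := Nat.eq_of_beq_eq_true h
    have h2 : 2 ^ (b + 1).log2 ≤ b + 1 := Nat.log2_self_le (by omega)
    have h3 : b + 1 < 2 ^ ((b + 1).log2 + 1) := Nat.lt_log2_self
    by_contra hne
    have h4 : 2 ^ (b + 1).log2 ≤ b := by omega
    have h5 := bit_top h2 h3
    have h6 := bit_top h4 (by omega)
    have h7 : ((b + 1) &&& b).testBit (b + 1).log2 = true := by
      rw [Nat.testBit_land, h5, h6]; rfl
    rw [h1] at h7
    simp at h7

theorem pow2_eq {a i j : ℕ} (h : pow2 a = true) (hi : a.testBit i = true)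
    (hj : a.testBit j = true) : i = j := by
  have e : a = 2 ^ a.log2 := pow2_log h
  rw [e, Nat.testBit_two_pow] at hi hj
  simp only [decide_eq_true_eq] at hi hj
  rw [← hi, ← hj]

/-- unit propagation along `m` hints, coded in base `2 ^ 16` in `s` -/
noncomputable def rup (t : Tr) (m : ℕ) : ℕ → ℕ → ℕ → Bool :=
  Nat.rec (motive := fun _ => ℕ → ℕ → ℕ → Bool) (fun _ _ _ => false)
    (fun _ ih s F T =>
      look (fun p n =>
        Bool.rec (motive := fun _ => Bool)
          (Bool.rec (motive := fun _ => Bool) false
            (Bool.rec (motive := fun _ => Bool) false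
              (force (Nat.div s 65536) fun s' => force (salt (Nat.lor (sh T) (Nat.xor (sh p) (Nat.land (sh p) (sh F))))
                (Nat.add (Nat.mul (Nat.mod T 1152921504606846976) 31) (Nat.mod s 65536))) fun T =>
                ih s' F T) (pow2 (Nat.xor (sh p) (Nat.land (sh p) (sh F)))))
            (Nat.beq (Nat.land (sh n) (sh T)) (sh n)))
          (Bool.rec (motive := fun _ => Bool)
            (Bool.rec (motive := fun _ => Bool) false
              (force (Nat.div s 65536) fun s' => force (salt (Nat.lor (sh F) (Nat.xor (sh n) (Nat.land (sh n) (sh T))))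
                (Nat.add (Nat.mul (Nat.mod F 1152921504606846976) 31) (Nat.mod s 65536))) fun F =>
                ih s' F T) (pow2 (Nat.xor (sh n) (Nat.land (sh n) (sh T)))))
            true (Nat.beq (Nat.land (sh n) (sh T)) (sh n)))
          (Nat.beq (Nat.land (sh p) (sh F)) (sh p)))
        t (Nat.mod s 65536)) m

theorem land_sub {p F i : ℕ} (h : Nat.beq (Nat.land p F) p = true) (hi : p.testBit i = true) :
    F.testBit i = true := by
  have e : p &&& F = p := Nat.eq_of_beq_eq_true h
  rw [← e, Nat.testBit_land, Bool.and_eq_true] at hi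
  exact hi.2

theorem xor_land {p F i : ℕ} : (Nat.xor p (Nat.land p F)).testBit i = true ↔
    p.testBit i = true ∧ F.testBit i = false := by
  show (p ^^^ (p &&& F)).testBit i = true ↔ _
  rw [Nat.testBit_xor, Nat.testBit_land]
  cases p.testBit i <;> cases F.testBit i <;> simp

theorem lor_bit {a b i : ℕ} : (Nat.lor a b).testBit i = true ↔
    a.testBit i = true ∨ b.testBit i = true := by
  show (a ||| b).testBit i = true ↔ _
  rw [Nat.testBit_lor, Bool.or_eq_true]

theorem rup_sound {val : ℕ → Prop} {t : Tr} (ht : Good val t) (m : ℕ) :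
    ∀ s F T : ℕ, (∀ i, (sh F).testBit i = true → ¬ val i) →
      (∀ i, (sh T).testBit i = true → val i) → rup t m s F T = true → False := by
  induction m with
  | zero => intro s F T _ _ h; exact absurd h (by simp [rup])
  | succ m ih =>
    intro s F T hF hT h
    obtain ⟨p, n, hs, h⟩ := look_sound ht _ h
    have h0 : Bool.rec (motive := fun _ => Bool)
          (Bool.rec (motive := fun _ => Bool) false
            (Bool.rec (motive := fun _ => Bool) false
              (force (Nat.div s 65536) fun s' => force (salt (Nat.lor (sh T) (Nat.xor (sh p) (Nat.land (sh p) (sh F))))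
                (Nat.add (Nat.mul (Nat.mod T 1152921504606846976) 31) (Nat.mod s 65536))) fun T =>
                rup t m s' F T) (pow2 (Nat.xor (sh p) (Nat.land (sh p) (sh F)))))
            (Nat.beq (Nat.land (sh n) (sh T)) (sh n)))
          (Bool.rec (motive := fun _ => Bool)
            (Bool.rec (motive := fun _ => Bool) false
              (force (Nat.div s 65536) fun s' => force (salt (Nat.lor (sh F) (Nat.xor (sh n) (Nat.land (sh n) (sh T))))
                (Nat.add (Nat.mul (Nat.mod F 1152921504606846976) 31) (Nat.mod s 65536))) fun F =>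
                rup t m s' F T) (pow2 (Nat.xor (sh n) (Nat.land (sh n) (sh T)))))
            true (Nat.beq (Nat.land (sh n) (sh T)) (sh n)))
          (Nat.beq (Nat.land (sh p) (sh F)) (sh p)) = true := h
    rw [brec_eq, brec_eq, brec_eq, brec_eq, brec_eq] at h0
    clear h
    rename' h0 => h
    cases hp : Nat.beq (Nat.land (sh p) (sh F)) (sh p) with
    | true =>
      rw [hp] at h
      have hpf : ∀ i, (sh p).testBit i = true → ¬ val i := fun i hi => hF i (land_sub hp hi)
      rcases hs with ⟨i, hi, hv⟩ | ⟨i, hi, hv⟩
      · exact hpf i hi hv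
      cases hn : Nat.beq (Nat.land (sh n) (sh T)) (sh n) with
      | true => exact hv (hT i (land_sub hn hi))
      | false =>
        rw [hn] at h
        simp only [cond_true, cond_false] at h
        cases h2 : pow2 (Nat.xor (sh n) (Nat.land (sh n) (sh T))) with
        | false => rw [h2] at h; exact absurd h (by simp)
        | true =>
          rw [h2] at h
          rw [cond_true, force_eq, force_eq] at h
          refine ih _ _ T (fun j hj => ?_) hT h
          rw [sh_salt] at hj
          rcases lor_bit.1 hj with hj | hj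
          · exact hF j hj
          · have hi' : (Nat.xor (sh n) (Nat.land (sh n) (sh T))).testBit i = true := by
              rw [xor_land]
              refine ⟨hi, ?_⟩
              cases hTi : (sh T).testBit i with
              | false => rfl
              | true => exact absurd (hT i hTi) hv
            rw [pow2_eq h2 hj hi']
            exact hv
    | false =>
      rw [hp] at h
      simp only [cond_false] at h
      cases hn : Nat.beq (Nat.land (sh n) (sh T)) (sh n) with
      | false => rw [hn] at h; exact absurd h (by simp)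
      | true =>
        rw [hn] at h
        simp only [cond_true] at h
        have hnt : ∀ i, (sh n).testBit i = true → val i := fun i hi => hT i (land_sub hn hi)
        rcases hs with ⟨i, hi, hv⟩ | ⟨i, hi, hv⟩
        · cases h2 : pow2 (Nat.xor (sh p) (Nat.land (sh p) (sh F))) with
          | false => rw [h2] at h; exact absurd h (by simp)
          | true =>
            rw [h2] at h
            rw [cond_true, force_eq, force_eq] at h
            refine ih _ F _ hF (fun j hj => ?_) h
            rw [sh_salt] at hj
            rcases lor_bit.1 hj with hj | hj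
            · exact hT j hj
            · have hi' : (Nat.xor (sh p) (Nat.land (sh p) (sh F))).testBit i = true := by
                rw [xor_land]
                refine ⟨hi, ?_⟩
                cases hFi : (sh F).testBit i with
                | false => rfl
                | true => exact absurd hv (hF i hFi)
              rw [pow2_eq h2 hj hi']
              exact hv
        · exact hv (hnt i hi)

/-- masks of the `m` literals coded in base `2 ^ 16` in `s` (`2 i` is positive, `2 i + 1`
negative) -/
noncomputable def maskP (m : ℕ) : ℕ → ℕ → ℕ :=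
  Nat.rec (motive := fun _ => ℕ → ℕ → ℕ) (fun _ a => a)
    (fun _ ih s a => ih (Nat.div s 65536) (cond (Nat.beq (Nat.mod s 2) 0)
      (Nat.lor a (Nat.shiftLeft 1 (Nat.div (Nat.mod s 65536) 2))) a)) m

noncomputable def maskN (m : ℕ) : ℕ → ℕ → ℕ :=
  Nat.rec (motive := fun _ => ℕ → ℕ → ℕ) (fun _ a => a)
    (fun _ ih s a => ih (Nat.div s 65536) (cond (Nat.beq (Nat.mod s 2) 0) a
      (Nat.lor a (Nat.shiftLeft 1 (Nat.div (Nat.mod s 65536) 2))))) m

theorem rup_clause {val : ℕ → Prop} {t : Tr} (ht : Good val t) {m s p n : ℕ}
    (h : rup t m s p n = true) : Sat val (sh p) (sh n) := by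
  by_contra hcon
  refine rup_sound ht m s p n (fun i hi hv => hcon (Or.inl ⟨i, hi, hv⟩)) (fun i hi => ?_) h
  by_contra hv
  exact hcon (Or.inr ⟨i, hi, hv⟩)

/-- run the steps; a step codes the number of literals, the number of hints, the literals and the
hints -/
noncomputable def run (steps : List ℕ) : ℕ → Tr → Bool :=
  List.rec (motive := fun _ => ℕ → Tr → Bool) (fun _ _ => false)
    (fun c _ ih k t =>
      cond (Nat.beq (Nat.mod c 65536) 0)
        (rup t (Nat.mod (Nat.div c 65536) 65536) (Nat.div c 4294967296) 0 0)
        (force (salt (maskP (Nat.mod c 65536) (Nat.div c 4294967296) 0) (Nat.mul k 7)) fun P =>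
          force (salt (maskN (Nat.mod c 65536) (Nat.div c 4294967296) 0) (Nat.add (Nat.mul k 7) 3)) fun N =>
          force (Nat.shiftRight c (Nat.mul 16 (Nat.add 2 (Nat.mod c 65536)))) fun s =>
          cond (rup t (Nat.mod (Nat.div c 65536) 65536) s P N)
            (force (Nat.add k 1) fun k1 => insK 14 t k P N fun t1 => ih k1 t1) false)) steps

theorem run_sound {val : ℕ → Prop} (steps : List ℕ) :
    ∀ (k : ℕ) (t : Tr), Good val t → run steps k t = true → False := by
  induction steps with
  | nil => intro k t _ h; exact absurd h (by simp [run])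
  | cons c rest ih =>
    intro k t ht h
    have h' : cond (Nat.beq (Nat.mod c 65536) 0)
        (rup t (Nat.mod (Nat.div c 65536) 65536) (Nat.div c 4294967296) 0 0)
        (force (salt (maskP (Nat.mod c 65536) (Nat.div c 4294967296) 0) (Nat.mul k 7)) fun P =>
          force (salt (maskN (Nat.mod c 65536) (Nat.div c 4294967296) 0) (Nat.add (Nat.mul k 7) 3)) fun N =>
          force (Nat.shiftRight c (Nat.mul 16 (Nat.add 2 (Nat.mod c 65536)))) fun s =>
          cond (rup t (Nat.mod (Nat.div c 65536) 65536) s P N)
            (force (Nat.add k 1) fun k1 => insK 14 t k P N fun t1 => run rest k1 t1) false) =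
          true := h
    rw [force_eq, force_eq, force_eq, force_eq] at h'
    generalize hP : salt (maskP (Nat.mod c 65536) (Nat.div c 4294967296) 0) (Nat.mul k 7) = P at h'
    generalize hN : salt (maskN (Nat.mod c 65536) (Nat.div c 4294967296) 0)
      (Nat.add (Nat.mul k 7) 3) = N at h'
    cases h0 : Nat.beq (Nat.mod c 65536) 0 with
    | true =>
      rw [h0] at h'
      exact rup_sound ht _ _ 0 0 (fun i hi => by simp [sh] at hi) (fun i hi => by simp [sh] at hi) h'
    | false =>
      rw [h0, cond_false] at h'
      cases h1 : rup t (Nat.mod (Nat.div c 65536) 65536)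
            (Nat.shiftRight c (Nat.mul 16 (Nat.add 2 (Nat.mod c 65536)))) P N with
      | false => rw [h1] at h'; exact absurd h' (by simp)
      | true =>
        rw [h1, cond_true] at h'
        obtain ⟨t1, ht1, h'⟩ := insK_sound (rup_clause ht h1) 14 t k _ ht h'
        exact ih _ _ ht1 h'

end Pool.Agent.H560CM
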