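import Pool.Agent.H560CM.LoadD

/-!
Refutations in several segments: a segment derives clauses for the later ones.
-/

set_option autoImplicit false

namespace Pool.Agent.H560CM

open Finset Pool.Agent.V11103.EF

/-- positive and negative mask of a coded clause: the number of literals and the literals in base
`2 ^ 16` -/
noncomputable def cP (c : ℕ) : ℕ := maskP (Nat.mod c 65536) (Nat.div c 65536) 0

noncomputable def cN (c : ℕ) : ℕ := maskN (Nat.mod c 65536) (Nat.div c 65536) 0

/-- all clauses of the list hold -/
def AllSat (val : ℕ → Prop) (G : List ℕ) : Prop := ∀ c ∈ G, Sat val (cP c) (cN c)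

/-- load known clauses -/
noncomputable def loadG (G : List ℕ) : ℕ → Tr → (ℕ → Tr → Bool) → Bool :=
  List.rec (motive := fun _ => ℕ → Tr → (ℕ → Tr → Bool) → Bool) (fun k t f => f k t)
    (fun c _ ih k t f => force (salt (cP c) (Nat.mul k 7)) fun p =>
      force (salt (cN c) (Nat.add (Nat.mul k 7) 3)) fun n =>
      force (Nat.add k 1) fun k1 => insK 14 t k p n fun t1 => ih k1 t1 f) G

theorem loadG_sound {val : ℕ → Prop} (G : List ℕ) (hG : AllSat val G) :
    ∀ (k : ℕ) (t : Tr) (f : ℕ → Tr → Bool), Good val t → loadG G k t f = true →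
      ∃ k' t', Good val t' ∧ f k' t' = true := by
  induction G with
  | nil => intro k t f ht h; exact ⟨k, t, ht, h⟩
  | cons c G ih =>
    intro k t f ht h
    have h' : (force (salt (cP c) (Nat.mul k 7)) fun p =>
      force (salt (cN c) (Nat.add (Nat.mul k 7) 3)) fun n =>
      force (Nat.add k 1) fun k1 => insK 14 t k p n fun t1 => loadG G k1 t1 f) =
      true := h
    rw [force_eq, force_eq, force_eq] at h'
    obtain ⟨t1, ht1, h'⟩ := insK_sound (by rw [sh_salt, sh_salt]; exact hG c (by simp)) 14 t k _
      ht h'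
    exact ih (fun d hd => hG d (by simp [hd])) _ _ _ ht1 h'

/-- run the steps, then apply `fin` -/
noncomputable def runF (fin : Tr → Bool) (steps : List ℕ) : ℕ → Tr → Bool :=
  List.rec (motive := fun _ => ℕ → Tr → Bool) (fun _ t => fin t)
    (fun c _ ih k t =>
        (force (salt (maskP (Nat.mod c 65536) (Nat.div c 4294967296) 0) (Nat.mul k 7)) fun P =>
          force (salt (maskN (Nat.mod c 65536) (Nat.div c 4294967296) 0) (Nat.add (Nat.mul k 7) 3)) fun N =>
          force (Nat.shiftRight c (Nat.mul 16 (Nat.add 2 (Nat.mod c 65536)))) fun s =>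
          cond (rup t (Nat.mod (Nat.div c 65536) 65536) s P N)
            (force (Nat.add k 1) fun k1 => insK 14 t k P N fun t1 => ih k1 t1) false)) steps

theorem runF_sound {val : ℕ → Prop} (fin : Tr → Bool) (steps : List ℕ) :
    ∀ (k : ℕ) (t : Tr), Good val t → runF fin steps k t = true →
      ∃ t', Good val t' ∧ fin t' = true := by
  induction steps with
  | nil => intro k t ht h; exact ⟨t, ht, h⟩
  | cons c rest ih =>
    intro k t ht h
    have h' : (force (salt (maskP (Nat.mod c 65536) (Nat.div c 4294967296) 0) (Nat.mul k 7)) fun P =>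
          force (salt (maskN (Nat.mod c 65536) (Nat.div c 4294967296) 0) (Nat.add (Nat.mul k 7) 3)) fun N =>
          force (Nat.shiftRight c (Nat.mul 16 (Nat.add 2 (Nat.mod c 65536)))) fun s =>
          cond (rup t (Nat.mod (Nat.div c 65536) 65536) s P N)
            (force (Nat.add k 1) fun k1 => insK 14 t k P N fun t1 => runF fin rest k1 t1) false) =
          true := h
    rw [force_eq, force_eq, force_eq, force_eq] at h'
    generalize hP : salt (maskP (Nat.mod c 65536) (Nat.div c 4294967296) 0) (Nat.mul k 7) = P at h'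
    generalize hN : salt (maskN (Nat.mod c 65536) (Nat.div c 4294967296) 0)
      (Nat.add (Nat.mul k 7) 3) = N at h'
    cases h1 : rup t (Nat.mod (Nat.div c 65536) 65536)
            (Nat.shiftRight c (Nat.mul 16 (Nat.add 2 (Nat.mod c 65536)))) P N with
    | false => rw [h1] at h'; exact absurd h' (by simp)
    | true =>
      rw [h1, cond_true] at h'
      obtain ⟨t1, ht1, h'⟩ := insK_sound (rup_clause ht h1) 14 t k _ ht h'
      exact ih _ _ ht1 h'

/-- the clauses `H` are in the tree, with the numbers `I` -/
noncomputable def finB (H : List ℕ) : List ℕ → Tr → Bool :=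
  List.rec (motive := fun _ => List ℕ → Tr → Bool) (fun _ _ => true) (fun c _ ih I t =>
    List.rec (motive := fun _ => Bool) false (fun i I' _ =>
      cond (look (fun p n => Nat.beq (sh p) (cP c) && Nat.beq (sh n) (cN c)) t i) (ih I' t) false)
      I) H

theorem finB_sound {val : ℕ → Prop} {t : Tr} (ht : Good val t) (H : List ℕ) :
    ∀ I : List ℕ, finB H I t = true → AllSat val H := by
  induction H with
  | nil => intro I h c hc; simp at hc
  | cons c H ih =>
    intro I h
    rcases I with _ | ⟨i, I⟩
    · exact absurd h (by simp [finB])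
    have h' : cond (look (fun p n => Nat.beq (sh p) (cP c) && Nat.beq (sh n) (cN c)) t i)
      (finB H I t) false = true := h
    cases h1 : look (fun p n => Nat.beq (sh p) (cP c) && Nat.beq (sh n) (cN c)) t i with
    | false => rw [h1] at h'; exact absurd h' (by simp)
    | true =>
      rw [h1, cond_true] at h'
      obtain ⟨p, n, hs, h2⟩ := look_sound ht _ h1
      rw [Bool.and_eq_true] at h2
      rw [Nat.eq_of_beq_eq_true h2.1, Nat.eq_of_beq_eq_true h2.2] at hs
      intro d hd
      rw [List.mem_cons] at hd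
      rcases hd with rfl | hd
      · exact hs
      · exact ih I h' d hd

/-- a segment: known clauses `G`, new clauses `cs`, steps, derived clauses `H` -/
noncomputable def segB (ck : ℕ → (ℕ → ℕ → Bool) → Bool) (G cs steps H I : List ℕ) : Bool :=
  loadG G 0 .nil fun k t => load ck cs k t fun k t => runF (finB H I) steps k t

theorem segB_sound {val : ℕ → Prop} {ck : ℕ → (ℕ → ℕ → Bool) → Bool}
    (hck : ∀ c k, ck c k = true → ∃ p n, Sat val p n ∧ k p n = true)
    {G cs steps H I : List ℕ} (h : segB ck G cs steps H I = true)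
    (hG : AllSat val G) : AllSat val H := by
  obtain ⟨k, t, ht, h⟩ := loadG_sound G hG 0 .nil _ trivial h
  obtain ⟨k, t, ht, h⟩ := load_sound hck cs k t _ ht h
  obtain ⟨t, ht, h⟩ := runF_sound _ steps k t ht h
  exact finB_sound ht H I h

theorem not_allSat {val : ℕ → Prop} {G : List ℕ} (h : AllSat val G)
    (h0 : 0 ∈ G) : False := by
  have e1 : cP 0 = 0 := rfl
  have e2 : cN 0 = 0 := rfl
  have := h _ h0
  rw [e1, e2] at this
  rcases this with ⟨i, hi, _⟩ | ⟨i, hi, _⟩ <;> simp at hi

/-- what the certificates of the second kind are about -/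
def DVal (v : Finset (Fin 10) → ℝ) (tb m : ℕ) (val : ℕ → Prop) : Prop :=
  ∃ (τ : ℝ) (js : ℕ), js < m ∧ Low v (four (tbl tb js)) τ ∧
    (∀ i, i < m → ∃ a ∈ four (tbl tb i), ∀ b, remB a b = true → τ ≤ v (toS b)) ∧
    val = fun i => MD v τ js (tbl tb i) i

theorem DVal.seg {v : Finset (Fin 10) → ℝ} (mono : ∀ S T, S ⊆ T → v S ≤ v T) (hno : NoEF1 v 4)
    {tb m : ℕ} {val : ℕ → Prop} (hv : DVal v tb m val) {G cs steps H I : List ℕ}
    (h : segB (ckD tb m 4) G cs steps H I = true)
    (hG : AllSat val G) : AllSat val H := by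
  obtain ⟨τ, js, hjs, hlow, hall, rfl⟩ := hv
  exact segB_sound (fun c k => ckD_sound mono hno hjs hlow hall 4 c k) h hG

theorem exists_DVal {tb m : ℕ} (hm : 0 < m) (h0 : (four (tbl tb 0)).all hasOut = true)
    (v : Finset (Fin 10) → ℝ) : ∃ val, DVal v tb m val := by
  obtain ⟨τ, js, hjs, hlow, hall⟩ := exists_tau v (m := m) (fun i => four (tbl tb i))
    (fun i a ha => four_lt ha) (fun i => by simp [four]) hm (fun a ha => by
      rw [List.all_eq_true] at h0
      have := h0 a ha
      unfold hasOut at this
      rw [List.any_eq_true] at this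
      obtain ⟨o, _, ho⟩ := this
      exact ⟨_, ho⟩)
  exact ⟨_, τ, js, hjs, hlow, hall, rfl⟩

/-- what the certificates of the first kind are about -/
def PVal (v : Finset (Fin 10) → ℝ) (tb : ℕ) (val : ℕ → Prop) : Prop :=
  val = fun i => MP v (tbl tb i)

theorem PVal.seg {v : Finset (Fin 10) → ℝ} (mono : ∀ S T, S ⊆ T → v S ≤ v T) {n : ℕ}
    (hno : NoEF1 v n) {tb : ℕ} {val : ℕ → Prop} (hv : PVal v tb val) {G cs steps H I : List ℕ}
    (h : segB (ckP tb n) G cs steps H I = true)
    (hG : AllSat val G) : AllSat val H := by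
  unfold PVal at hv
  subst hv
  exact segB_sound (fun c k => ckP_sound mono hno tb c k) h hG

end Pool.Agent.H560CM
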