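import Pool.Agent.H560CM.Rup
import Pool.Agent.V11103.EFDefs

/-!
Common monotone valuations on `exGraph`: the clauses and their meaning.
-/

set_option autoImplicit false

namespace Pool.Agent.H560CM

open Finset Pool.Agent.V11103.EF

/-- the set of vertices with mask `a` -/
def toS (a : ℕ) : Finset (Fin 10) := univ.filter fun i => a.testBit i.val = true

theorem mem_toS {a : ℕ} {i : Fin 10} : i ∈ toS a ↔ a.testBit i.val = true := by
  simp [toS]

theorem conn_of_hub {V : Type} {G : SimpleGraph V} {S : Set V} {c : V} (hc : c ∈ S)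
    (h : ∀ y ∈ S, y = c ∨ G.Adj y c ∨ ∃ z ∈ S, G.Adj y z ∧ G.Adj z c) :
    (G.induce S).Connected := by
  have : Nonempty S := ⟨⟨c, hc⟩⟩
  have key : ∀ y : S, (G.induce S).Reachable y ⟨c, hc⟩ := by
    rintro ⟨y, hy⟩
    rcases h y hy with h | h | ⟨z, hz, h1, h2⟩
    · subst h; exact SimpleGraph.Reachable.refl _
    · exact SimpleGraph.Adj.reachable h
    · have h3 : (G.induce S).Adj ⟨y, hy⟩ ⟨z, hz⟩ := h1
      have h4 : (G.induce S).Adj ⟨z, hz⟩ ⟨c, hc⟩ := h2
      exact h3.reachable.trans h4.reachable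
  exact ⟨fun a b => (key a).trans (key b).symm⟩

/-- connectedness test for masks -/
def conB (a : ℕ) : Bool :=
  ((a.testBit 5 || (a.testBit 6 || (a.testBit 7 || (a.testBit 8 || a.testBit 9)))) &&
    ((!a.testBit 0 || a.testBit 5) &&
    ((!a.testBit 1 || (a.testBit 6 || a.testBit 7)) &&
    ((!a.testBit 2 || (a.testBit 6 || a.testBit 7)) &&
    ((!a.testBit 3 || (a.testBit 8 || a.testBit 9)) &&
    ((!a.testBit 4 || (a.testBit 8 || a.testBit 9))))))))

theorem adjK : ∀ i j : Fin 10, 5 ≤ i → 5 ≤ j → i ≠ j → exGraph.Adj i j := by decide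
theorem adjs : exGraph.Adj 0 5 ∧ exGraph.Adj 1 6 ∧ exGraph.Adj 1 7 ∧ exGraph.Adj 2 6 ∧
    exGraph.Adj 2 7 ∧ exGraph.Adj 3 8 ∧ exGraph.Adj 3 9 ∧ exGraph.Adj 4 8 ∧ exGraph.Adj 4 9 := by
  decide

theorem conB_conn {a : ℕ} (h : conB a = true) :
    (exGraph.induce ((toS a : Finset (Fin 10)) : Set (Fin 10))).Connected := by
  unfold conB at h
  simp only [Bool.and_eq_true, Bool.or_eq_true, Bool.not_eq_true'] at h
  obtain ⟨hk, h0, h1, h2, h3, h4⟩ := h
  have hc : ∃ c : Fin 10, 5 ≤ c ∧ a.testBit c.val = true := by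
    rcases hk with h | h | h | h | h
    · exact ⟨5, by decide, h⟩
    · exact ⟨6, by decide, h⟩
    · exact ⟨7, by decide, h⟩
    · exact ⟨8, by decide, h⟩
    · exact ⟨9, by decide, h⟩
  obtain ⟨c, hc5, hca⟩ := hc
  refine conn_of_hub (c := c) (mem_toS.2 hca) fun y hy => ?_
  have hy' : a.testBit y.val = true := mem_toS.1 hy
  by_cases hyc : y = c
  · exact Or.inl hyc
  by_cases hy5 : 5 ≤ y
  · exact Or.inr (Or.inl (adjK y c hy5 hc5 hyc))
  have key : ∃ z : Fin 10, 5 ≤ z ∧ a.testBit z.val = true ∧ exGraph.Adj y z := by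
    have hy4 : y = 0 ∨ y = 1 ∨ y = 2 ∨ y = 3 ∨ y = 4 := by
      revert hy5; clear * -; revert y; decide
    obtain ⟨a0, a1, a2, a3, a4, a5, a6, a7, a8⟩ := adjs
    rcases hy4 with rfl | rfl | rfl | rfl | rfl
    · rcases h0 with h | h
      · exact absurd hy' (by rw [show ((0 : Fin 10) : ℕ) = 0 from rfl, h]; simp)
      · exact ⟨5, by decide, h, a0⟩
    · rcases h1 with h | h | h
      · exact absurd hy' (by rw [show ((1 : Fin 10) : ℕ) = 1 from rfl, h]; simp)
      · exact ⟨6, by decide, h, a1⟩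
      · exact ⟨7, by decide, h, a2⟩
    · rcases h2 with h | h | h
      · exact absurd hy' (by rw [show ((2 : Fin 10) : ℕ) = 2 from rfl, h]; simp)
      · exact ⟨6, by decide, h, a3⟩
      · exact ⟨7, by decide, h, a4⟩
    · rcases h3 with h | h | h
      · exact absurd hy' (by rw [show ((3 : Fin 10) : ℕ) = 3 from rfl, h]; simp)
      · exact ⟨8, by decide, h, a5⟩
      · exact ⟨9, by decide, h, a6⟩
    · rcases h4 with h | h | h
      · exact absurd hy' (by rw [show ((4 : Fin 10) : ℕ) = 4 from rfl, h]; simp)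
      · exact ⟨8, by decide, h, a7⟩
      · exact ⟨9, by decide, h, a8⟩
  obtain ⟨z, hz5, hza, hyz⟩ := key
  by_cases hzc : z = c
  · exact Or.inr (Or.inl (hzc ▸ hyz))
  · exact Or.inr (Or.inr ⟨z, mem_toS.2 hza, hyz, adjK z c hz5 hc5 hzc⟩)

theorem toS_zero : toS 0 = ∅ := by
  ext i; simp [mem_toS]

theorem toS_mono {a b : ℕ} (h : Nat.land a b = a) : toS a ⊆ toS b := by
  intro i hi
  rw [mem_toS] at hi ⊢
  have e : a &&& b = a := h
  rw [← e, Nat.testBit_land, Bool.and_eq_true] at hi
  exact hi.2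

theorem bit_pow2 {a i : ℕ} (h : pow2 a = true) : a.testBit i = true ↔ i = a.log2 := by
  have h1 : a = 2 ^ a.log2 := pow2_log h
  conv_lhs => rw [h1]
  rw [Nat.testBit_two_pow, decide_eq_true_eq]
  exact eq_comm

/-- test whether `b` arises from `a` by removing an outer vertex -/
noncomputable def remB (a b : ℕ) : Bool :=
  Nat.beq (Nat.land b a) b && (pow2 (Nat.xor a b) && (Nat.beq b 0 || conB b || pow2 b))

theorem conn_single {G : SimpleGraph (Fin 10)} {S : Finset (Fin 10)} {c : Fin 10}
    (h : ∀ x ∈ S, x = c) (hc : c ∈ S) : (G.induce (S : Set (Fin 10))).Connected :=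
  conn_of_hub (c := c) hc fun y hy => Or.inl (h y hy)

/-- a mask with a single bit below ten, or connected -/
theorem conn_or {a : ℕ} (ha : a < 1024) (h : (conB a || pow2 a) = true) (h0 : a ≠ 0) :
    (exGraph.induce ((toS a : Finset (Fin 10)) : Set (Fin 10))).Connected := by
  rw [Bool.or_eq_true] at h
  rcases h with h | h
  · exact conB_conn h
  · have hlt : a.log2 < 10 := by
      rw [Nat.log2_lt h0]; exact ha
    refine conn_single (c := ⟨a.log2, hlt⟩) (fun x hx => ?_) ?_
    · rw [mem_toS, bit_pow2 h] at hx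
      exact Fin.ext hx
    · rw [mem_toS, bit_pow2 h]

theorem remB_outer {a b : ℕ} (ha : a < 1024) (h : remB a b = true) :
    ∃ o, IsOuter exGraph (toS a) o ∧ (toS a).erase o = toS b := by
  unfold remB at h
  rw [Bool.and_eq_true, Bool.and_eq_true] at h
  obtain ⟨h1, h2, h3⟩ := h
  have hba : b &&& a = b := Nat.eq_of_beq_eq_true h1
  have hble : b ≤ a := by
    rw [← hba]; exact Nat.and_le_right
  have hx : ∀ i, (Nat.xor a b).testBit i = true ↔ i = (Nat.xor a b).log2 := fun i => bit_pow2 h2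
  have hxor : ∀ i, (Nat.xor a b).testBit i = Bool.xor (a.testBit i) (b.testBit i) := fun i => by
    show (a ^^^ b).testBit i = _
    rw [Nat.testBit_xor]
  have hsub : ∀ i, b.testBit i = true → a.testBit i = true := fun i hi => by
    rw [← hba, Nat.testBit_land, Bool.and_eq_true] at hi
    exact hi.2
  set o := (Nat.xor a b).log2 with ho
  have hoa : a.testBit o = true ∧ b.testBit o = false := by
    have := (hx o).2 rfl
    rw [hxor] at this
    cases hA : a.testBit o <;> cases hB : b.testBit o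
    · rw [hA, hB] at this; simp at this
    · exact absurd (hsub o hB) (by rw [hA]; simp)
    · exact ⟨rfl, rfl⟩
    · rw [hA, hB] at this; simp at this
  have ho10 : o < 10 := by
    by_contra hcon
    have : a < 2 ^ o := lt_of_lt_of_le ha (by
      calc 1024 = 2 ^ 10 := by norm_num
        _ ≤ 2 ^ o := Nat.pow_le_pow_right (by norm_num) (by omega))
    rw [Nat.testBit_lt_two_pow this] at hoa
    exact absurd hoa.1 (by simp)
  have he : (toS a).erase ⟨o, ho10⟩ = toS b := by
    ext i
    rw [Finset.mem_erase, mem_toS, mem_toS]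
    constructor
    · rintro ⟨hne, hi⟩
      have hio : i.val ≠ o := fun h => hne (Fin.ext h)
      have : ¬ (Nat.xor a b).testBit i.val = true := fun h => hio ((hx _).1 h)
      rw [hxor, hi] at this
      cases hB : b.testBit i.val
      · rw [hB] at this; simp at this
      · rfl
    · intro hi
      refine ⟨fun h => ?_, hsub _ hi⟩
      rw [h] at hi
      exact absurd hi (by rw [show ((⟨o, ho10⟩ : Fin 10) : ℕ) = o from rfl, hoa.2]; simp)
  refine ⟨⟨o, ho10⟩, ⟨mem_toS.2 hoa.1, ?_⟩, he⟩
  rw [he]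
  by_cases hb0 : b = 0
  · left
    rw [hb0, toS_zero]
  · right
    apply conn_or (lt_of_le_of_lt hble ha) _ hb0
    rw [Bool.or_eq_true, Bool.or_eq_true] at h3
    rcases h3 with (h3 | h3) | h3
    · exact absurd (Nat.eq_of_beq_eq_true h3) hb0
    · rw [h3]; rfl
    · rw [h3]; simp

/-- union of masks -/
def orAll : List ℕ → ℕ
  | [] => 0
  | a :: l => Nat.lor a (orAll l)

def disjB : List ℕ → Bool
  | [] => true
  | a :: l => l.all (fun b => Nat.beq (Nat.land a b) 0) && disjB l

/-- test for connected partitions -/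
noncomputable def partB (ms : List ℕ) : Bool :=
  ms.all (fun a => conB a || pow2 a) && (disjB ms && Nat.beq (orAll ms) 1023)

theorem orAll_mem {i : ℕ} : ∀ {l : List ℕ}, (orAll l).testBit i = true →
    ∃ a ∈ l, a.testBit i = true
  | [], h => by simp [orAll] at h
  | a :: l, h => by
    rcases lor_bit.1 h with h | h
    · exact ⟨a, by simp, h⟩
    · obtain ⟨b, hb, h⟩ := orAll_mem h
      exact ⟨b, by simp [hb], h⟩

theorem orAll_le : ∀ {l : List ℕ} {a : ℕ}, a ∈ l → Nat.land a (orAll l) = a
  | b :: l, a, h => by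
    apply Nat.eq_of_testBit_eq
    intro i
    show (a &&& orAll (b :: l)).testBit i = _
    rw [Nat.testBit_land]
    cases ha : a.testBit i
    · rfl
    · rw [Bool.true_and]
      apply lor_bit.2
      rcases List.mem_cons.1 h with h | h
      · left; rw [← h]; exact ha
      · right
        have h2 : a &&& orAll l = a := orAll_le h
        rw [← h2, Nat.testBit_land, Bool.and_eq_true] at ha
        exact ha.2

theorem disjB_pairwise : ∀ {l : List ℕ}, disjB l = true → l.Pairwise fun a b => Nat.land a b = 0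
  | [], _ => List.Pairwise.nil
  | a :: l, h => by
    unfold disjB at h
    rw [Bool.and_eq_true, List.all_eq_true] at h
    exact List.Pairwise.cons (fun b hb => Nat.eq_of_beq_eq_true (h.1 b hb)) (disjB_pairwise h.2)

theorem toS_disj {a b : ℕ} (h : Nat.land a b = 0) : Disjoint (toS a) (toS b) := by
  rw [Finset.disjoint_left]
  intro i hi hj
  rw [mem_toS] at hi hj
  have h2 : a &&& b = 0 := h
  have : (a &&& b).testBit i.val = true := by rw [Nat.testBit_land, hi, hj]; rfl
  rw [h2] at this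
  simp at this

/-- the allocation of a list of masks -/
def alloc {n : ℕ} (ms : List ℕ) (hn : ms.length = n) (i : Fin n) : Finset (Fin 10) :=
  toS (ms[i.val]'(by rw [hn]; exact i.2))

theorem partB_alloc {n : ℕ} {ms : List ℕ} (hn : ms.length = n) (h : partB ms = true) :
    IsAllocation (alloc ms hn) ∧ IsConnectedAllocation exGraph (alloc ms hn) ∧
      ∀ a ∈ ms, a < 1024 := by
  unfold partB at h
  rw [Bool.and_eq_true, Bool.and_eq_true, List.all_eq_true] at h
  obtain ⟨h1, h2, h3⟩ := h
  have h3' : orAll ms = 1023 := Nat.eq_of_beq_eq_true h3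
  have hlt : ∀ a ∈ ms, a < 1024 := fun a ha => by
    have h4 : a &&& orAll ms = a := orAll_le ha
    rw [h3'] at h4
    have : a &&& 1023 ≤ 1023 := Nat.and_le_right
    omega
  refine ⟨⟨fun i j hij => ?_, fun x => ?_⟩, fun i hi => ?_, hlt⟩
  · have hp := List.pairwise_iff_getElem.1 (disjB_pairwise h2)
    rcases lt_or_gt_of_ne (fun h => hij (Fin.ext h) : i.val ≠ j.val) with hlt' | hlt'
    · exact toS_disj (hp i.val j.val _ _ hlt')
    · exact (toS_disj (hp j.val i.val _ _ hlt')).symm
  · have : (orAll ms).testBit x.val = true := by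
      rw [h3']; revert x; decide
    obtain ⟨a, ha, hx⟩ := orAll_mem this
    obtain ⟨i, hi, rfl⟩ := List.mem_iff_getElem.1 ha
    exact ⟨⟨i, by rw [← hn]; exact hi⟩, mem_toS.2 hx⟩
  · have hmem : ms[i.val]'(by rw [hn]; exact i.2) ∈ ms := List.getElem_mem _
    refine conn_or (hlt _ hmem) (h1 _ hmem) fun h0 => ?_
    unfold alloc at hi
    rw [h0, toS_zero] at hi
    simp at hi

end Pool.Agent.H560CM
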